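import Pool.Agent.EF.MainInd

/-!
# Algebraic independence of combinations of the functions `∑ zⁿ / (n! nᵏ)`
-/

set_option linter.unusedSectionVars false

open Polynomial

namespace Pool.Agent.EF

section abstract

variable {K : Type*} [Field K] [CharZero K]

/-- The element `∑ zⁿ Xⁿ / (n! n^(j+1))`. -/
noncomputable def LW (j : ℕ) (z : K) : W K := IW (List.replicate j 0 ++ [z])

lemma LW_coe (j : ℕ) {z : K} (hz : z ≠ 0) : ((LW j z : W K) : PowerSeries K) = ee (j + 1) z := by
  rw [LW, IW_coe (adm_rep hz j), I_rep hz]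

lemma DD_LW_lt (α : K) {z : K} (hz : z ≠ 0) {j j' : ℕ} (h : j' < j) : DD α j (LW j' z) = 0 := by
  rw [LW]
  exact DD_short α j _ (adm_rep hz j') (by simpa using h)

lemma DD_LW_ne {α z : K} (hz : z ≠ 0) (h : z ≠ α) (j : ℕ) : DD α j (LW j z) = 0 := by
  classical
  rw [LW, DD_rep α hz j, if_neg h]

lemma DD_LW_self {z : K} (hz : z ≠ 0) (j : ℕ) : DD z j (LW j z) = (-1) ^ j := by
  classical
  rw [LW, DD_rep z hz j, if_pos rfl]

/-- Three term combinations `L(a) + L(b) - c L(w)` at all levels are algebraically independent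
over the exponentials, as long as the points `a` are different from each other and from all other
points. -/
theorem algInd_three {ι : Type*} (lev : ι → ℕ) (a b w c : ι → K)
    (ha : ∀ i, a i ≠ 0) (hb : ∀ i, b i ≠ 0) (hw : ∀ i, w i ≠ 0)
    (hab : ∀ i i', a i ≠ b i') (haw : ∀ i i', a i ≠ w i')
    (hinj : ∀ i i', lev i = lev i' → a i = a i' → i = i') :
    AlgebraicIndependent (RW K) (fun i : ι =>
      LW (lev i) (a i) + LW (lev i) (b i) - c i • LW (lev i) (w i)) := by
  refine algInd_of_derivations (K := K) (RW K) _ lev (fun i => DD (a i) (lev i)) ?_ ?_ ?_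
  · exact fun i => der_RW _ fun β => DD_eW _ _ _
  · intro i i' hle hne
    rw [map_sub, map_add, der_smul]
    rcases Nat.lt_or_eq_of_le hle with h | h
    · rw [DD_LW_lt _ (ha i') h, DD_LW_lt _ (hb i') h, DD_LW_lt _ (hw i') h, smul_zero, add_zero,
        sub_zero]
    · have h1 : a i' ≠ a i := fun h' => hne (hinj i' i h h')
      rw [h, DD_LW_ne (ha i') h1, DD_LW_ne (hb i') (Ne.symm (hab i i')),
        DD_LW_ne (hw i') (Ne.symm (haw i i')), smul_zero, add_zero, sub_zero]
  · intro i
    rw [map_sub, map_add, der_smul, DD_LW_self (ha i), DD_LW_ne (hb i) (Ne.symm (hab i i)),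
      DD_LW_ne (hw i) (Ne.symm (haw i i)), smul_zero, add_zero, sub_zero]
    exact pow_ne_zero _ (neg_ne_zero.2 one_ne_zero)

end abstract

/-- Algebraic independence over the algebra of exponentials passes to the values at `1`, over the
field generated by exponentials. -/
theorem algInd_transport {ι : Type*} {y : ι → W QB} (h1 : AlgebraicIndependent (RW QB) y) :
    AlgebraicIndependent expField (fun i => evW phi (y i)) := by
  let f : RW QB →+* SC :=
    { toFun := fun r => ⟨evW phi r.1, ⟨r.1, r.2, rfl⟩⟩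
      map_one' := Subtype.ext (by simp)
      map_mul' := fun a b => Subtype.ext (by simp)
      map_zero' := Subtype.ext (by simp)
      map_add' := fun a b => Subtype.ext (by simp) }
  have hf : Function.Surjective f := by
    rintro ⟨_, ⟨r, hr, rfl⟩⟩
    exact ⟨⟨r, hr⟩, rfl⟩
  have h2 := h1.ringHom_of_comp_eq f (evW phi) hf evW_phi_injective (by
    ext r
    rfl)
  have h3 := h2.subalgebraAlgebraicClosure
  have h4 : ∀ x ∈ expField, x ∈ Subalgebra.algebraicClosure SC ℂ := fun x hx =>
    expField_isAlgebraic hx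
  let i : expField →+* Subalgebra.algebraicClosure SC ℂ :=
    { toFun := fun r => ⟨r.1, h4 r.1 r.2⟩
      map_one' := rfl
      map_mul' := fun _ _ => rfl
      map_zero' := rfl
      map_add' := fun _ _ => rfl }
  have h5 := AlgebraicIndependent.of_ringHom_of_comp_eq (R := expField) (A := ℂ)
    (x := fun i => evW phi (y i))
    i (RingHom.id ℂ) (by
      convert h3 using 1
      rfl) (by
      intro a b hab
      apply Subtype.ext
      exact congrArg (fun t : Subalgebra.algebraicClosure SC ℂ => (t : ℂ)) hab) (by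
      ext r
      rfl)
  exact h5

lemma evW_LW (j : ℕ) {z : QB} (hz : z ≠ 0) : evW phi (LW j z) =
    ∑' n : ℕ, (phi z) ^ (n + 1) / (((n + 1).factorial : ℂ) * ((n : ℂ) + 1) ^ (j + 1)) := by
  rw [evW_apply, LW_coe j hz, evG]
  have h0 : Sm phi (ee (j + 1) z) := by
    rw [← LW_coe j hz]; exact Sm.of_mem (LW j z).2
  have h1 : Summable fun n => phi (PowerSeries.coeff n (ee (j + 1) z)) := h0.of_norm
  rw [h1.tsum_eq_zero_add]
  rw [coeff_ee, if_pos rfl, map_zero, zero_add]
  refine tsum_congr fun n => ?_
  rw [coeff_ee, if_neg (Nat.succ_ne_zero n), map_div₀, map_pow, map_mul, map_natCast, map_pow,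
    map_natCast]
  push_cast
  rfl

end Pool.Agent.EF
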