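import Pool.Agent.EF.Indep

/-!
# The algebra spanned by the functions `exp (β X) * I w`
-/

set_option linter.unusedSectionVars false

open Polynomial

namespace Pool.Agent.EF

variable {K : Type*} [Field K] [CharZero K]

/-! ### Closures -/

open Classical in
/-- The closure of one index. -/
noncomputable def cl : K → List K → Finset (K × List K)
  | β, [] => {(β, [])}
  | β, α :: w => insert (β, α :: w) (cl β w ∪ cl (β + α) w)

lemma cl_self (β : K) (w : List K) : (β, w) ∈ cl β w := by
  classical
  cases w with
  | nil => simp [cl]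
  | cons α w => simp [cl]

lemma cl_closed (β : K) (w : List K) : Closed (cl β w) := by
  classical
  induction w generalizing β with
  | nil =>
    intro β' α' w' h
    simp [cl] at h
  | cons α w ih =>
    intro β' α' w' h
    rw [cl, Finset.mem_insert, Finset.mem_union] at h
    rcases h with h | h | h
    · rw [Prod.mk.injEq, List.cons.injEq] at h
      obtain ⟨rfl, rfl, rfl⟩ := h
      refine ⟨?_, ?_⟩
      · rw [cl]
        exact Finset.mem_insert_of_mem (Finset.mem_union_left _ (cl_self _ _))
      · rw [cl]
        exact Finset.mem_insert_of_mem (Finset.mem_union_right _ (cl_self _ _))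
    · obtain ⟨h1, h2⟩ := ih β β' α' w' h
      rw [cl]
      exact ⟨Finset.mem_insert_of_mem (Finset.mem_union_left _ h1),
        Finset.mem_insert_of_mem (Finset.mem_union_left _ h2)⟩
    · obtain ⟨h1, h2⟩ := ih (β + α) β' α' w' h
      rw [cl]
      exact ⟨Finset.mem_insert_of_mem (Finset.mem_union_right _ h1),
        Finset.mem_insert_of_mem (Finset.mem_union_right _ h2)⟩

lemma cl_adm {β : K} {w : List K} (h : Adm w) : ∀ x ∈ cl β w, Adm x.2 := by
  classical
  induction w generalizing β with
  | nil =>
    intro x hx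
    simp only [cl, Finset.mem_singleton] at hx
    rw [hx]; exact h
  | cons α w ih =>
    intro x hx
    rw [cl, Finset.mem_insert, Finset.mem_union] at hx
    rcases hx with hx | hx | hx
    · rw [hx]; exact h
    · exact ih h.2 x hx
    · exact ih h.2 x hx

open Classical in
/-- The closure of a finite set of indices. -/
noncomputable def clF (F : Finset (K × List K)) : Finset (K × List K) :=
  F.biUnion fun x => cl x.1 x.2

lemma subset_clF (F : Finset (K × List K)) : F ⊆ clF F := by
  classical
  intro x hx
  rw [clF, Finset.mem_biUnion]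
  exact ⟨x, hx, cl_self _ _⟩

lemma clF_closed (F : Finset (K × List K)) : Closed (clF F) := by
  classical
  intro β α w h
  rw [clF, Finset.mem_biUnion] at h
  obtain ⟨x, hx, h⟩ := h
  obtain ⟨h1, h2⟩ := cl_closed _ _ _ _ _ h
  rw [clF]
  exact ⟨Finset.mem_biUnion.2 ⟨x, hx, h1⟩, Finset.mem_biUnion.2 ⟨x, hx, h2⟩⟩

lemma clF_adm {F : Finset (K × List K)} (h : ∀ x ∈ F, Adm x.2) : ∀ x ∈ clF F, Adm x.2 := by
  classical
  intro x hx
  rw [clF, Finset.mem_biUnion] at hx
  obtain ⟨y, hy, hx⟩ := hx
  exact cl_adm (h y hy) x hx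

/-- Linear independence over `K[X]`, for an arbitrary finite set of admissible indices. -/
theorem lin_indep {F : Finset (K × List K)} (hadm : ∀ x ∈ F, Adm x.2) (u : K × List K → K[X])
    (hu : Phi F u = 0) : ∀ x ∈ F, u x = 0 := by
  classical
  have h1 := lin_indep_closed (clF_closed F) (clF_adm hadm) (fun x => if x ∈ F then u x else 0) (by
    rw [← hu]
    unfold Phi
    rw [← Finset.sum_subset (subset_clF F)]
    · refine Finset.sum_congr rfl fun x hx => ?_
      simp only [if_pos hx]
    · intro x _ hx
      simp only [if_neg hx]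
      simp)
  intro x hx
  have h2 := h1 x (subset_clF F hx)
  simpa only [if_pos hx] using h2

/-! ### Products -/

/-- The span of the `I v`, `v` admissible and nonempty. -/
noncomputable def Ip (K : Type*) [Field K] [CharZero K] : Submodule K (PowerSeries K) :=
  Submodule.span K (I '' {v | Adm v ∧ v ≠ []})

lemma I_mem_Ip {v : List K} (h : Adm v) (hv : v ≠ []) : I v ∈ Ip K :=
  Submodule.subset_span ⟨v, ⟨h, hv⟩, rfl⟩

open Classical in
lemma J_mem {f : PowerSeries K} (hf : f ∈ Ip K) (α : K) : J (ep α * f) ∈ Ip K := by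
  induction hf using Submodule.span_induction with
  | mem x hx =>
    obtain ⟨v, ⟨hv, hv'⟩, rfl⟩ := hx
    rw [← I_cons]
    exact I_mem_Ip ⟨Or.inr hv', hv⟩ (List.cons_ne_nil _ _)
  | zero => rw [mul_zero, J_zero]; exact Submodule.zero_mem _
  | add x y _ _ hx hy => rw [mul_add, J_add]; exact Submodule.add_mem _ hx hy
  | smul c x _ hx => rw [mul_smul_comm, J_smul]; exact Submodule.smul_mem _ _ hx

lemma I_mul_I (n : ℕ) : ∀ w w' : List K, w.length + w'.length = n → Adm w → Adm w' → w ≠ [] →
    w' ≠ [] → I w * I w' ∈ Ip K := by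
  classical
  induction n using Nat.strong_induction_on with
  | _ n ih =>
    intro w w' hn hw hw' hne hne'
    obtain ⟨α, v, rfl⟩ := List.exists_cons_of_ne_nil hne
    obtain ⟨β, v', rfl⟩ := List.exists_cons_of_ne_nil hne'
    have h0 : PowerSeries.coeff 0 (I (α :: v) * I (β :: v')) = 0 := by
      rw [PowerSeries.coeff_zero_eq_constantCoeff_apply, map_mul,
        ← PowerSeries.coeff_zero_eq_constantCoeff_apply, coeff_zero_I hne, zero_mul]
    rw [← J_th h0, th_mul, th_I_cons hw, th_I_cons hw', J_add]
    have e1 : ep α * I v * I (β :: v') = ep α * (I v * I (β :: v')) := by ring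
    have e2 : I (α :: v) * (ep β * I v') = ep β * (I (α :: v) * I v') := by ring
    rw [e1, e2]
    simp only [List.length_cons] at hn
    refine Submodule.add_mem _ (J_mem ?_ _) (J_mem ?_ _)
    · by_cases hv : v = []
      · subst hv
        rw [I_nil, one_mul]
        exact I_mem_Ip hw' hne'
      · exact ih (v.length + (β :: v').length) (by simp only [List.length_cons]; omega) v (β :: v')
          rfl hw.2 hw' hv hne'
    · by_cases hv : v' = []
      · subst hv
        rw [I_nil, mul_one]
        exact I_mem_Ip hw hne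
      · exact ih ((α :: v).length + v'.length) (by simp only [List.length_cons]; omega) (α :: v) v'
          rfl hw hw'.2 hne hv

/-- The span of all the functions `g x`. -/
noncomputable def Wsp (K : Type*) [Field K] [CharZero K] : Submodule K (PowerSeries K) :=
  Submodule.span K (g '' {x | Adm x.2})

lemma g_mem {x : K × List K} (h : Adm x.2) : g x ∈ Wsp K := Submodule.subset_span ⟨x, h, rfl⟩

lemma E_mul_mem {f : PowerSeries K} (hf : f ∈ Ip K) (β : K) : E β * f ∈ Wsp K := by
  induction hf using Submodule.span_induction with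
  | mem x hx =>
    obtain ⟨v, ⟨hv, _⟩, rfl⟩ := hx
    exact g_mem (x := (β, v)) hv
  | zero => rw [mul_zero]; exact Submodule.zero_mem _
  | add x y _ _ hx hy => rw [mul_add]; exact Submodule.add_mem _ hx hy
  | smul c x _ hx => rw [mul_smul_comm]; exact Submodule.smul_mem _ _ hx

lemma g_mul_g {x y : K × List K} (hx : Adm x.2) (hy : Adm y.2) : g x * g y ∈ Wsp K := by
  have h : g x * g y = E (x.1 + y.1) * (I x.2 * I y.2) := by
    rw [g, g, ← E_mul]
    ring
  rw [h]
  by_cases hx' : x.2 = []
  · rw [hx', I_nil, one_mul]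
    exact g_mem (x := (x.1 + y.1, y.2)) hy
  · by_cases hy' : y.2 = []
    · rw [hy', I_nil, mul_one]
      exact g_mem (x := (x.1 + y.1, x.2)) hx
    · exact E_mul_mem (I_mul_I _ _ _ rfl hx hy hx' hy') _

lemma Wsp_mul {f h : PowerSeries K} (hf : f ∈ Wsp K) (hh : h ∈ Wsp K) : f * h ∈ Wsp K := by
  induction hf using Submodule.span_induction with
  | mem x hx =>
    obtain ⟨x, hx, rfl⟩ := hx
    induction hh using Submodule.span_induction with
    | mem y hy =>
      obtain ⟨y, hy, rfl⟩ := hy
      exact g_mul_g hx hy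
    | zero => rw [mul_zero]; exact Submodule.zero_mem _
    | add y z _ _ hy hz => rw [mul_add]; exact Submodule.add_mem _ hy hz
    | smul c y _ hy => rw [mul_smul_comm]; exact Submodule.smul_mem _ _ hy
  | zero => rw [zero_mul]; exact Submodule.zero_mem _
  | add x y _ _ hx hy => rw [add_mul]; exact Submodule.add_mem _ hx hy
  | smul c x _ hx => rw [smul_mul_assoc]; exact Submodule.smul_mem _ _ hx

lemma one_mem_Wsp : (1 : PowerSeries K) ∈ Wsp K := by
  have h := g_mem (K := K) (x := (0, [])) trivial
  rw [g, I_nil, E_zero, mul_one] at h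
  exact h

/-- The algebra spanned by the functions `exp (β X) * I w`. -/
noncomputable def W (K : Type*) [Field K] [CharZero K] : Subalgebra K (PowerSeries K) :=
  Submodule.toSubalgebra (Wsp K) one_mem_Wsp fun _ _ hf hh => Wsp_mul hf hh

lemma mem_W {f : PowerSeries K} : f ∈ W K ↔ f ∈ Wsp K := Iff.rfl

/-- Elements of `W` are finite linear combinations. -/
lemma exists_repr {f : PowerSeries K} (hf : f ∈ Wsp K) :
    ∃ (F : Finset (K × List K)) (c : K × List K → K), (∀ x ∈ F, Adm x.2) ∧
      f = ∑ x ∈ F, c x • g x := by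
  classical
  obtain ⟨t, ht, c, rfl⟩ := (Submodule.mem_span_image_iff_exists_fun K).1 hf
  refine ⟨t, fun x => if h : x ∈ t then c ⟨x, h⟩ else 0, fun x hx => ht hx, ?_⟩
  rw [← Finset.sum_coe_sort t (fun x => (if h : x ∈ t then c ⟨x, h⟩ else 0) • g x)]
  refine Finset.sum_congr rfl fun x _ => ?_
  simp

end Pool.Agent.EF
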