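import Mathlib

/-!
# Exponentials and iterated integrals of exponentials, as formal power series

Over a field `K` of characteristic `0` we consider the power series `E β = exp (β X)` and, for a
word `w` in the alphabet `K`, the iterated integral `I w`, defined by `I [] = 1`,
`I (α :: w) = ∫ (exp (α X) - 1) I w dX / X` for `α ≠ 0` and `I (0 :: w) = ∫ I w dX / X`.
-/

set_option linter.unusedSectionVars false

open PowerSeries

namespace Pool.Agent.EF

variable {K : Type*} [Field K] [CharZero K]

/-- The Euler operator `X d/dX`. -/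
noncomputable def th (f : K⟦X⟧) : K⟦X⟧ := X * derivative K f

lemma coeff_th (f : K⟦X⟧) (n : ℕ) : coeff n (th f) = n * coeff n f := by
  cases n with
  | zero => simp [th]
  | succ n =>
    rw [th, coeff_succ_X_mul, coeff_derivative]
    push_cast
    ring

lemma th_add (f g : K⟦X⟧) : th (f + g) = th f + th g := by
  ext n; simp only [coeff_th, map_add]; ring

lemma th_sub (f g : K⟦X⟧) : th (f - g) = th f - th g := by
  ext n; simp only [coeff_th, map_sub]; ring

lemma th_zero : th (0 : K⟦X⟧) = 0 := by
  ext n; simp [coeff_th]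

lemma th_mul (f g : K⟦X⟧) : th (f * g) = th f * g + f * th g := by
  simp only [th, Derivation.leibniz, smul_eq_mul]
  ring

lemma th_sum {α : Type*} (s : Finset α) (f : α → K⟦X⟧) :
    th (∑ i ∈ s, f i) = ∑ i ∈ s, th (f i) := by
  simp [th, Finset.mul_sum]

lemma th_C_mul (c : K) (f : K⟦X⟧) : th (C c * f) = C c * th f := by
  ext n; simp only [coeff_th, coeff_C_mul]; ring

lemma th_smul (c : K) (f : K⟦X⟧) : th (c • f) = c • th f := by
  ext n
  simp only [coeff_th, coeff_smul, smul_eq_mul]
  ring

/-- The inverse of the Euler operator on series without constant term; it drops the constant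
term. -/
noncomputable def J (f : K⟦X⟧) : K⟦X⟧ := mk fun n => coeff n f / n

lemma coeff_J (f : K⟦X⟧) (n : ℕ) : coeff n (J f) = coeff n f / n := by
  simp [J]

lemma coeff_zero_J (f : K⟦X⟧) : coeff 0 (J f) = 0 := by
  simp [J]

lemma th_J {f : K⟦X⟧} (h : coeff 0 f = 0) : th (J f) = f := by
  ext n
  rw [coeff_th, coeff_J]
  rcases Nat.eq_zero_or_pos n with rfl | hn
  · rw [h]; simp
  · have : (n : K) ≠ 0 := by exact_mod_cast hn.ne'
    field_simp

lemma J_th {f : K⟦X⟧} (h : coeff 0 f = 0) : J (th f) = f := by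
  ext n
  rw [coeff_J, coeff_th]
  rcases Nat.eq_zero_or_pos n with rfl | hn
  · rw [h]; simp
  · have : (n : K) ≠ 0 := by exact_mod_cast hn.ne'
    field_simp

lemma J_add (f g : K⟦X⟧) : J (f + g) = J f + J g := by
  ext n; simp only [coeff_J, map_add]; ring

lemma J_smul (c : K) (f : K⟦X⟧) : J (c • f) = c • J f := by
  ext n; simp only [coeff_J, coeff_smul, smul_eq_mul]; ring

lemma J_zero : J (0 : K⟦X⟧) = 0 := by
  ext n; simp [coeff_J]

/-- `exp (β X)`. -/
noncomputable def E (β : K) : K⟦X⟧ := mk fun n => β ^ n / (n.factorial : K)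

lemma coeff_E (β : K) (n : ℕ) : coeff n (E β) = β ^ n / (n.factorial : K) := by
  simp [E]

lemma E_zero : E (0 : K) = 1 := by
  ext n
  rw [coeff_E, coeff_one]
  rcases Nat.eq_zero_or_pos n with rfl | hn
  · simp
  · rw [if_neg hn.ne', zero_pow hn.ne', zero_div]

lemma E_eq_rescale (β : K) : E β = rescale β (exp K) := by
  ext n
  rw [coeff_E, coeff_rescale, coeff_exp]
  simp [div_eq_mul_inv]

lemma E_mul (β γ : K) : E β * E γ = E (β + γ) := by
  rw [E_eq_rescale, E_eq_rescale, E_eq_rescale, exp_mul_exp_eq_exp_add]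

lemma th_E (β : K) : th (E β) = C β * X * E β := by
  ext n
  rw [coeff_th, coeff_E, mul_assoc, coeff_C_mul]
  cases n with
  | zero => simp
  | succ n =>
    rw [coeff_succ_X_mul, coeff_E, Nat.factorial_succ]
    have h1 : ((n : K) + 1) ≠ 0 := by exact_mod_cast Nat.succ_ne_zero n
    have h2 : (n.factorial : K) ≠ 0 := by exact_mod_cast n.factorial_ne_zero
    push_cast
    field_simp
    ring

lemma coeff_zero_E (β : K) : coeff 0 (E β) = 1 := by
  simp [coeff_E]

/-- The kernel attached to a letter: `exp (α X) - 1` for `α ≠ 0`, and `1` for `α = 0`. -/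
noncomputable def ep (α : K) [Decidable (α = 0)] : K⟦X⟧ := if α = 0 then 1 else E α - 1

open Classical in
/-- Iterated integrals. -/
noncomputable def I : List K → K⟦X⟧
  | [] => 1
  | α :: w => J (ep α * I w)

/-- Admissible words: the last letter is not `0`. -/
def Adm : List K → Prop
  | [] => True
  | α :: w => (α ≠ 0 ∨ w ≠ []) ∧ Adm w

lemma I_nil : I ([] : List K) = 1 := rfl

lemma coeff_zero_I {w : List K} (h : w ≠ []) : coeff 0 (I w) = 0 := by
  cases w with
  | nil => exact absurd rfl h
  | cons α w => exact coeff_zero_J _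

open Classical in
lemma I_cons (α : K) (w : List K) : I (α :: w) = J (ep α * I w) := rfl

lemma ep_zero [Decidable ((0 : K) = 0)] : ep (0 : K) = 1 := if_pos rfl

lemma ep_of_ne {α : K} [Decidable (α = 0)] (h : α ≠ 0) : ep α = E α - 1 := if_neg h

lemma coeff_zero_ep {α : K} [Decidable (α = 0)] (h : α ≠ 0) : coeff 0 (ep α) = 0 := by
  rw [ep_of_ne h, map_sub, coeff_zero_E]
  simp

open Classical in
lemma th_I_cons {α : K} {w : List K} (h : Adm (α :: w)) : th (I (α :: w)) = ep α * I w := by
  rw [I_cons, th_J]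
  rw [coeff_zero_eq_constantCoeff_apply, map_mul, ← coeff_zero_eq_constantCoeff_apply,
    ← coeff_zero_eq_constantCoeff_apply]
  rcases h.1 with h1 | h1
  · rw [coeff_zero_ep h1, zero_mul]
  · rw [coeff_zero_I h1, mul_zero]

/-- The function attached to an index. -/
noncomputable def g (x : K × List K) : K⟦X⟧ := E x.1 * I x.2

lemma th_g_nil (β : K) : th (g (β, [])) = C β * X * g (β, []) := by
  simp only [g, I_nil, mul_one, th_E]

lemma th_g_zero {β : K} {w : List K} (h : Adm ((0 : K) :: w)) :
    th (g (β, 0 :: w)) = C β * X * g (β, 0 :: w) + g (β, w) := by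
  classical
  simp only [g, th_mul, th_E, th_I_cons h]
  rw [ep_zero]
  ring

lemma th_g_cons {β α : K} {w : List K} (h : Adm (α :: w)) (hα : α ≠ 0) :
    th (g (β, α :: w)) = C β * X * g (β, α :: w) + (g (β + α, w) - g (β, w)) := by
  classical
  simp only [g, th_mul, th_E, th_I_cons h]
  rw [ep_of_ne hα, ← E_mul]
  ring

end Pool.Agent.EF
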