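import Pool.Agent.EF.Alg

/-!
# Derivations of the algebra `W`: removal of the first letter
-/

set_option linter.unusedSectionVars false

open Polynomial

namespace Pool.Agent.EF

variable {K : Type*} [Field K] [CharZero K]

/-- Linear independence over `K`. -/
lemma li_g : LinearIndependent K (fun x : {x : K × List K // Adm x.2} => g x.1) := by
  classical
  rw [linearIndependent_iff']
  intro s c hc x hx
  let u : K × List K → K[X] := fun y => if h : Adm y.2 then C (c ⟨y, h⟩) else 0
  have hu : ∀ y : {x : K × List K // Adm x.2}, u y.1 = C (c y) := fun y => dif_pos y.2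
  have h1 : Phi (s.map (Function.Embedding.subtype _)) u = 0 := by
    rw [← hc]
    unfold Phi
    rw [Finset.sum_map]
    refine Finset.sum_congr rfl fun y _ => ?_
    rw [Function.Embedding.coe_subtype, hu y, Polynomial.coe_C, PowerSeries.smul_eq_C_mul]
  have h2 := lin_indep (F := s.map (Function.Embedding.subtype _)) (by
    intro y hy
    rw [Finset.mem_map] at hy
    obtain ⟨z, _, rfl⟩ := hy
    exact z.2) _ h1 x.1 (by
    rw [Finset.mem_map]
    exact ⟨x, hx, rfl⟩)
  rw [hu x] at h2
  exact C_eq_zero.1 h2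

/-- The basis of `Wsp` given by the functions `g x`. -/
noncomputable def basisW : Module.Basis {x : K × List K // Adm x.2} K (Wsp K) :=
  (Module.Basis.span li_g).map (LinearEquiv.ofEq _ _ (by
    rw [Wsp]
    congr 1
    ext f
    constructor
    · rintro ⟨x, rfl⟩
      exact ⟨x.1, x.2, rfl⟩
    · rintro ⟨x, hx, rfl⟩
      exact ⟨⟨x, hx⟩, rfl⟩))

lemma basisW_apply (x : {x : K × List K // Adm x.2}) : ((basisW x : Wsp K) : PowerSeries K) = g x.1 := by
  unfold basisW
  rw [Module.Basis.map_apply]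
  simp [Module.Basis.span_apply]

open Classical in
/-- Removal of the first letter, on indices. -/
noncomputable def rm (a : K) (x : K × List K) : PowerSeries K :=
  match x with
  | (_, []) => 0
  | (β, b :: w) => if b = a then g (β, w) else 0

open Classical in
lemma rm_cons (a β b : K) (w : List K) :
    rm a (β, b :: w) = if b = a then g (β, w) else 0 := by
  simp [rm]

lemma rm_nil (a β : K) : rm a (β, []) = 0 := rfl

/-- Removal of the first letter, as a linear map. -/
noncomputable def del (a : K) : Wsp K →ₗ[K] PowerSeries K :=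
  basisW.constr K fun x => rm a x.1

lemma del_g (a : K) {x : K × List K} (hx : Adm x.2) : del a ⟨g x, g_mem hx⟩ = rm a x := by
  have h1 : (⟨g x, g_mem hx⟩ : Wsp K) = basisW ⟨x, hx⟩ := by
    apply Subtype.ext
    rw [basisW_apply]
  rw [h1, del, Module.Basis.constr_basis]

lemma rm_mem (a : K) {x : K × List K} (hx : Adm x.2) : rm a x ∈ Wsp K := by
  classical
  obtain ⟨β, w⟩ := x
  cases w with
  | nil => rw [rm_nil]; exact Submodule.zero_mem _
  | cons b w =>
    rw [rm_cons]
    split_ifs
    · exact g_mem (x := (β, w)) hx.2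
    · exact Submodule.zero_mem _

/-- induction principle -/
lemma Wsp_induction {p : Wsp K → Prop} (hg : ∀ x (hx : Adm x.2), p ⟨g x, g_mem hx⟩)
    (h0 : p 0) (hadd : ∀ u v, p u → p v → p (u + v)) (hsmul : ∀ (c : K) u, p u → p (c • u))
    (u : Wsp K) : p u := by
  obtain ⟨f, hf⟩ := u
  induction hf using Submodule.span_induction with
  | mem x hx =>
    obtain ⟨y, hy, rfl⟩ := hx
    exact hg y hy
  | zero => exact h0
  | add x y hx hy ihx ihy => exact hadd ⟨x, hx⟩ ⟨y, hy⟩ ihx ihy
  | smul c x hx ihx => exact hsmul c ⟨x, hx⟩ ihx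

lemma del_mem (a : K) (u : Wsp K) : del a u ∈ Wsp K := by
  induction u using Wsp_induction with
  | hg x hx => rw [del_g a hx]; exact rm_mem a hx
  | h0 => rw [map_zero]; exact Submodule.zero_mem _
  | hadd u v hu hv => rw [map_add]; exact Submodule.add_mem _ hu hv
  | hsmul c u hu => rw [map_smul]; exact Submodule.smul_mem _ _ hu

/-- multiplication by an exponential -/
lemma E_mul_g (δ : K) (x : K × List K) : E δ * g x = g (δ + x.1, x.2) := by
  rw [g, g, ← E_mul]; ring

lemma E_mul_mem' (δ : K) (u : Wsp K) : E δ * (u : PowerSeries K) ∈ Wsp K := by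
  refine Wsp_mul ?_ u.2
  have : E δ = g (δ, ([] : List K)) := by rw [g, I_nil, mul_one]
  rw [this]
  exact g_mem (x := (δ, [])) trivial

lemma E_mul_rm (a δ : K) (x : K × List K) : E δ * rm a x = rm a (δ + x.1, x.2) := by
  classical
  obtain ⟨β, w⟩ := x
  cases w with
  | nil => rw [rm_nil, rm_nil, mul_zero]
  | cons b w =>
    rw [rm_cons]
    simp only
    rw [rm_cons]
    split_ifs
    · rw [E_mul_g]
    · rw [mul_zero]

lemma del_E_mul (a δ : K) (u : Wsp K) : del a ⟨E δ * u, E_mul_mem' δ u⟩ = E δ * del a u := by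
  induction u using Wsp_induction with
  | hg x hx =>
    rw [del_g a hx]
    have h1 : (⟨E δ * g x, E_mul_mem' δ ⟨g x, g_mem hx⟩⟩ : Wsp K) =
        ⟨g (δ + x.1, x.2), g_mem hx⟩ := by
      apply Subtype.ext
      exact E_mul_g δ x
    rw [h1, del_g a (x := (δ + x.1, x.2)) hx, E_mul_rm]
  | h0 =>
    have h1 : (⟨E δ * ((0 : Wsp K) : PowerSeries K), E_mul_mem' δ 0⟩ : Wsp K) = 0 := by
      apply Subtype.ext
      simp
    rw [h1, map_zero, mul_zero]
  | hadd u v hu hv =>
    have h1 : (⟨E δ * ((u + v : Wsp K) : PowerSeries K), E_mul_mem' δ (u + v)⟩ : Wsp K) =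
        ⟨E δ * u, E_mul_mem' δ u⟩ + ⟨E δ * v, E_mul_mem' δ v⟩ := by
      apply Subtype.ext
      simp [mul_add]
    rw [h1, map_add, map_add, hu, hv, mul_add]
  | hsmul c u hu =>
    have h1 : (⟨E δ * ((c • u : Wsp K) : PowerSeries K), E_mul_mem' δ (c • u)⟩ : Wsp K) =
        c • ⟨E δ * u, E_mul_mem' δ u⟩ := by
      apply Subtype.ext
      simp
    rw [h1, map_smul, map_smul, hu, mul_smul_comm]

/-! ### Pure words -/

lemma Ip_le : Ip K ≤ Wsp K := by
  apply Submodule.span_le.2
  rintro _ ⟨v, ⟨hv, _⟩, rfl⟩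
  have h := g_mem (K := K) (x := (0, v)) hv
  rw [g, E_zero, one_mul] at h
  exact h

lemma I_mem {v : List K} (hv : Adm v) : I v ∈ Wsp K := by
  have h := g_mem (K := K) (x := (0, v)) hv
  rw [g, E_zero, one_mul] at h
  exact h

lemma I_eq_g (v : List K) : I v = g ((0 : K), v) := by
  rw [g, E_zero, one_mul]

lemma del_I (a : K) {v : List K} (hv : Adm v) : del a ⟨I v, I_mem hv⟩ = rm a (0, v) := by
  have h1 : (⟨I v, I_mem hv⟩ : Wsp K) = ⟨g ((0 : K), v), g_mem (x := ((0 : K), v)) hv⟩ := by
    apply Subtype.ext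
    exact I_eq_g v
  rw [h1, del_g a (x := ((0 : K), v)) hv]

open Classical in
lemma J_mem' {f : PowerSeries K} (hf : f ∈ Ip K) (α : K) : J (ep α * f) ∈ Wsp K :=
  Ip_le (J_mem hf α)

open Classical in
lemma del_L (a b : K) {f : PowerSeries K} (hf : f ∈ Ip K) :
    del a ⟨J (ep b * f), J_mem' hf b⟩ = if b = a then f else 0 := by
  induction hf using Submodule.span_induction with
  | mem x hx =>
    obtain ⟨v, ⟨hv, hv'⟩, rfl⟩ := hx
    have hadm : Adm (b :: v) := ⟨Or.inr hv', hv⟩
    have h1 := del_I a hadm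
    rw [rm_cons] at h1
    have h2 : (if b = a then I v else 0) = (if b = a then g ((0 : K), v) else 0) := by
      rw [I_eq_g v]
    exact h1.trans h2.symm
  | zero =>
    have h1 : (⟨J (ep b * (0 : PowerSeries K)), J_mem' (Submodule.zero_mem _) b⟩ : Wsp K) = 0 := by
      apply Subtype.ext
      simp [J_zero]
    rw [h1, map_zero]
    split_ifs <;> rfl
  | add x y hx hy ihx ihy =>
    have h1 : (⟨J (ep b * (x + y)), J_mem' (Submodule.add_mem _ hx hy) b⟩ : Wsp K) =
        ⟨J (ep b * x), J_mem' hx b⟩ + ⟨J (ep b * y), J_mem' hy b⟩ := by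
      apply Subtype.ext
      simp [mul_add, J_add]
    rw [h1, map_add, ihx, ihy]
    split_ifs <;> simp
  | smul c x hx ihx =>
    have h1 : (⟨J (ep b * (c • x)), J_mem' (Submodule.smul_mem _ c hx) b⟩ : Wsp K) =
        c • ⟨J (ep b * x), J_mem' hx b⟩ := by
      apply Subtype.ext
      simp [J_smul]
    rw [h1, map_smul, ihx]
    split_ifs <;> simp

lemma I_mul_mem {v v' : List K} (hv : Adm v) (hv' : Adm v') : I v * I v' ∈ Wsp K :=
  Wsp_mul (I_mem hv) (I_mem hv')

/-- Leibniz rule on pure words. -/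
lemma del_I_mul_I (a : K) {w w' : List K} (hw : Adm w) (hw' : Adm w') :
    del a ⟨I w * I w', I_mul_mem hw hw'⟩ = rm a (0, w) * I w' + I w * rm a (0, w') := by
  classical
  cases w with
  | nil =>
    have h1 : (⟨I [] * I w', I_mul_mem hw hw'⟩ : Wsp K) = ⟨I w', I_mem hw'⟩ := by
      apply Subtype.ext
      simp [I_nil]
    rw [h1, del_I a hw', rm_nil, zero_mul, zero_add, I_nil, one_mul]
  | cons b v =>
    cases w' with
    | nil =>
      have h1 : (⟨I (b :: v) * I [], I_mul_mem hw hw'⟩ : Wsp K) = ⟨I (b :: v), I_mem hw⟩ := by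
        apply Subtype.ext
        simp [I_nil]
      rw [h1, del_I a hw, rm_nil, mul_zero, add_zero, I_nil, mul_one]
    | cons b' v' =>
      have hne : b :: v ≠ [] := List.cons_ne_nil _ _
      have hne' : b' :: v' ≠ [] := List.cons_ne_nil _ _
      have hm1 : I v * I (b' :: v') ∈ Ip K := by
        by_cases hv : v = []
        · subst hv
          rw [I_nil, one_mul]
          exact I_mem_Ip hw' hne'
        · exact I_mul_I _ _ _ rfl hw.2 hw' hv hne'
      have hm2 : I (b :: v) * I v' ∈ Ip K := by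
        by_cases hv : v' = []
        · subst hv
          rw [I_nil, mul_one]
          exact I_mem_Ip hw hne
        · exact I_mul_I _ _ _ rfl hw hw'.2 hne hv
      have h0 : PowerSeries.coeff 0 (I (b :: v) * I (b' :: v')) = 0 := by
        rw [PowerSeries.coeff_zero_eq_constantCoeff_apply, map_mul,
          ← PowerSeries.coeff_zero_eq_constantCoeff_apply, coeff_zero_I hne, zero_mul]
      have h1 : (⟨I (b :: v) * I (b' :: v'), I_mul_mem hw hw'⟩ : Wsp K) =
          ⟨J (ep b * (I v * I (b' :: v'))), J_mem' hm1 b⟩ +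
            ⟨J (ep b' * (I (b :: v) * I v')), J_mem' hm2 b'⟩ := by
        apply Subtype.ext
        change I (b :: v) * I (b' :: v') = J (ep b * (I v * I (b' :: v'))) +
          J (ep b' * (I (b :: v) * I v'))
        rw [← J_th h0, th_mul, th_I_cons hw, th_I_cons hw', J_add]
        congr 2 <;> ring
      rw [h1, map_add, del_L a b hm1, del_L a b' hm2, rm_cons, rm_cons, ← I_eq_g, ← I_eq_g]
      split_ifs <;> ring

/-- Leibniz rule on generators. -/
lemma del_g_mul_g (a : K) {x y : K × List K} (hx : Adm x.2) (hy : Adm y.2) :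
    del a ⟨g x * g y, g_mul_g hx hy⟩ = rm a x * g y + g x * rm a y := by
  have h1 : (⟨g x * g y, g_mul_g hx hy⟩ : Wsp K) =
      ⟨E (x.1 + y.1) * (I x.2 * I y.2), E_mul_mem' _ ⟨I x.2 * I y.2, I_mul_mem hx hy⟩⟩ := by
    apply Subtype.ext
    change g x * g y = E (x.1 + y.1) * (I x.2 * I y.2)
    rw [g, g, ← E_mul]; ring
  have h2 := del_E_mul a (x.1 + y.1) ⟨I x.2 * I y.2, I_mul_mem hx hy⟩
  have h3 : ∀ z : K × List K, rm a z = E z.1 * rm a (0, z.2) := by
    intro z
    rw [E_mul_rm, add_zero]
  rw [h1, h2, del_I_mul_I a hx hy, h3 x, h3 y, g, g, ← E_mul]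
  ring

/-- multiplication in `Wsp` -/
lemma del_mul (a : K) (u v : Wsp K) :
    del a ⟨(u : PowerSeries K) * v, Wsp_mul u.2 v.2⟩ = del a u * v + u * del a v := by
  induction u using Wsp_induction with
  | hg x hx =>
    induction v using Wsp_induction with
    | hg y hy =>
      rw [del_g a hx, del_g a hy]
      exact del_g_mul_g a hx hy
    | h0 =>
      have h1 : (⟨g x * ((0 : Wsp K) : PowerSeries K), Wsp_mul (g_mem hx) (0 : Wsp K).2⟩ : Wsp K) =
          0 := by
        apply Subtype.ext
        simp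
      rw [h1]
      simp
    | hadd v w hv hw =>
      have h1 : (⟨g x * ((v + w : Wsp K) : PowerSeries K), Wsp_mul (g_mem hx) (v + w).2⟩ : Wsp K) =
          ⟨g x * v, Wsp_mul (g_mem hx) v.2⟩ + ⟨g x * w, Wsp_mul (g_mem hx) w.2⟩ := by
        apply Subtype.ext
        simp [mul_add]
      rw [h1, map_add, hv, hw, map_add]
      simp only [Submodule.coe_add]
      ring
    | hsmul c v hv =>
      have h1 : (⟨g x * ((c • v : Wsp K) : PowerSeries K), Wsp_mul (g_mem hx) (c • v).2⟩ : Wsp K) =
          c • ⟨g x * v, Wsp_mul (g_mem hx) v.2⟩ := by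
        apply Subtype.ext
        simp
      rw [h1, map_smul, hv, map_smul]
      simp only [Submodule.coe_smul, smul_add, mul_smul_comm]
  | h0 =>
    have h1 : (⟨((0 : Wsp K) : PowerSeries K) * v, Wsp_mul (0 : Wsp K).2 v.2⟩ : Wsp K) = 0 := by
      apply Subtype.ext
      simp
    rw [h1]
    simp
  | hadd u w hu hw =>
    have h1 : (⟨((u + w : Wsp K) : PowerSeries K) * v, Wsp_mul (u + w).2 v.2⟩ : Wsp K) =
        ⟨u * v, Wsp_mul u.2 v.2⟩ + ⟨w * v, Wsp_mul w.2 v.2⟩ := by
      apply Subtype.ext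
      simp [add_mul]
    rw [h1, map_add, hu, hw, map_add]
    simp only [Submodule.coe_add]
    ring
  | hsmul c u hu =>
    have h1 : (⟨((c • u : Wsp K) : PowerSeries K) * v, Wsp_mul (c • u).2 v.2⟩ : Wsp K) =
        c • ⟨u * v, Wsp_mul u.2 v.2⟩ := by
      apply Subtype.ext
      simp
    rw [h1, map_smul, hu, map_smul]
    simp only [Submodule.coe_smul, smul_add, smul_mul_assoc]

/-- The derivation of `W` removing the first letter `a`. -/
noncomputable def dW (a : K) : Derivation K (W K) (W K) :=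
  Derivation.mk' (LinearMap.codRestrict (Subalgebra.toSubmodule (W K))
    (del a : Wsp K →ₗ[K] PowerSeries K) (del_mem a)) (by
    intro u v
    apply Subtype.ext
    have h := del_mul a u v
    change del a ⟨(u : PowerSeries K) * v, Wsp_mul u.2 v.2⟩ = u * del a v + v * del a u
    rw [h]
    ring)

lemma dW_coe (a : K) (u : W K) : ((dW a u : W K) : PowerSeries K) = del a u := rfl

end Pool.Agent.EF
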