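import Mathlib

/-!
# Algebraic independence by means of derivations
-/

open Polynomial

namespace Pool.Agent.EF

/-- If a derivation over `S` does not kill `y` then `y` is transcendental over `S`. -/
theorem transcendental_of_derivation {S A : Type*} [CommRing S] [CommRing A] [IsDomain A]
    [CharZero A] [Algebra S A] (hinj : Function.Injective (algebraMap S A))
    (D : Derivation S A A) {y : A} (hy : D y ≠ 0) : Transcendental S y := by
  have hS : IsDomain S := hinj.isDomain (algebraMap S A)
  have hS0 : CharZero S := by
    constructor
    intro a b hab
    have h := congrArg (algebraMap S A) hab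
    rw [map_natCast, map_natCast] at h
    exact Nat.cast_injective h
  rw [transcendental_iff]
  have key : ∀ n : ℕ, ∀ p : S[X], p.natDegree = n → aeval y p = 0 → p = 0 := by
    intro n
    induction n using Nat.strong_induction_on with
    | _ n ih =>
      intro p hn hp
      have h1 : aeval y (derivative p) = 0 := by
        have h2 := D.map_aeval p y
        rw [hp, map_zero, smul_eq_mul] at h2
        rcases mul_eq_zero.1 h2.symm with h3 | h3
        · exact h3
        · exact absurd h3 hy
      by_cases h0 : p.natDegree = 0
      · rw [eq_C_of_natDegree_eq_zero h0] at hp ⊢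
        rw [aeval_C] at hp
        rw [(map_eq_zero_iff _ hinj).1 hp, C_0]
      · exfalso
        have h2 := natDegree_derivative_lt h0
        have h3 := ih _ (hn ▸ h2) _ rfl h1
        exact h0 (derivative_eq_zero.1 h3)
  exact fun p hp => key _ p rfl hp

/-- A derivation over `K` which kills a subalgebra `S` is a derivation over `S`. -/
noncomputable def liftDer {K A R : Type*} [CommRing K] [CommRing A] [CommRing R] [Algebra K A]
    [Algebra R A] (S : Subalgebra R A) (D : Derivation K A A) (h : ∀ s ∈ S, D s = 0) :
    Derivation S A A :=
  Derivation.mk'
    { toFun := D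
      map_add' := fun x y => map_add D x y
      map_smul' := fun s x => by
        rw [RingHom.id_apply, Subalgebra.smul_def, Subalgebra.smul_def, smul_eq_mul, smul_eq_mul,
          D.leibniz, h s.1 s.2, smul_zero, add_zero, smul_eq_mul] }
    (fun a b => D.leibniz a b)

lemma liftDer_apply {K A R : Type*} [CommRing K] [CommRing A] [CommRing R] [Algebra K A]
    [Algebra R A] (S : Subalgebra R A) (D : Derivation K A A) (h : ∀ s ∈ S, D s = 0) (a : A) :
    liftDer S D h a = D a := rfl

/-- Algebraic independence from a triangular system of derivations. -/
theorem algInd_of_derivations {K A ι : Type*} [CommRing K] [CommRing A] [IsDomain A]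
    [CharZero A] [Algebra K A] (R : Subalgebra K A) (y : ι → A) (lev : ι → ℕ)
    (D : ι → Derivation K A A) (hR : ∀ i, ∀ r ∈ R, D i r = 0)
    (h1 : ∀ i i', lev i' ≤ lev i → i' ≠ i → D i (y i') = 0) (h2 : ∀ i, D i (y i) ≠ 0) :
    AlgebraicIndependent R y := by
  classical
  refine algebraicIndependent_of_finite_type fun t ht => ?_
  lift t to Finset ι using ht
  change AlgebraicIndepOn R y (t : Set ι)
  induction t using Finset.induction_on_max_value lev with
  | empty =>
    rw [Finset.coe_empty]
    exact algebraicIndependent_empty_type_iff.2 Subtype.val_injective
  | insert a s ha hmax ih =>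
    rw [Finset.coe_insert]
    refine ih.insert ?_
    have hkill : ∀ r ∈ Algebra.adjoin R (y '' (s : Set ι)), D a r = 0 := by
      intro r hr
      induction hr using Algebra.adjoin_induction with
      | mem x hx =>
        obtain ⟨i, hi, rfl⟩ := hx
        refine h1 a i (hmax i hi) ?_
        rintro rfl
        exact ha hi
      | algebraMap r => exact hR a r.1 r.2
      | add x y _ _ hx hy => rw [map_add, hx, hy, add_zero]
      | mul x y _ _ hx hy => rw [Derivation.leibniz, hx, hy, smul_zero, smul_zero, add_zero]
    exact transcendental_of_derivation Subtype.val_injective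
      (liftDer _ (D a) hkill) (h2 a)

end Pool.Agent.EF
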