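import Pool.Agent.EF.EFun

/-!
# Galois descent and the Siegel–Shidlovskii theorem for the algebra `W`
-/

set_option linter.unusedSectionVars false

open Polynomial

namespace Pool.Agent.EF

variable {K : Type*} [Field K] [NumberField K]

/-! ### Conjugation -/

/-- Conjugation of the coefficients. -/
noncomputable def cj (σ : K ≃ₐ[ℚ] K) : PowerSeries K →+* PowerSeries K :=
  PowerSeries.map (σ : K →+* K)

lemma coeff_cj (σ : K ≃ₐ[ℚ] K) (f : PowerSeries K) (n : ℕ) :
    PowerSeries.coeff n (cj σ f) = σ (PowerSeries.coeff n f) := by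
  simp [cj]

lemma cj_E (σ : K ≃ₐ[ℚ] K) (β : K) : cj σ (E β) = E (σ β) := by
  ext n
  rw [coeff_cj, coeff_E, coeff_E, map_div₀, map_pow, map_natCast]

lemma cj_J (σ : K ≃ₐ[ℚ] K) (f : PowerSeries K) : cj σ (J f) = J (cj σ f) := by
  ext n
  rw [coeff_cj, coeff_J, coeff_J, coeff_cj, map_div₀, map_natCast]

lemma cj_smul (σ : K ≃ₐ[ℚ] K) (c : K) (f : PowerSeries K) : cj σ (c • f) = σ c • cj σ f := by
  ext n
  rw [coeff_cj, PowerSeries.coeff_smul, PowerSeries.coeff_smul, coeff_cj, smul_eq_mul, smul_eq_mul,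
    map_mul]

lemma cj_ep (σ : K ≃ₐ[ℚ] K) (α : K) [Decidable (α = 0)] [Decidable (σ α = 0)] :
    cj σ (ep α) = ep (σ α) := by
  by_cases h : α = 0
  · have h' : σ α = 0 := by rw [h, map_zero]
    unfold ep
    rw [if_pos h, if_pos h', map_one]
  · have h' : σ α ≠ 0 := by simpa using h
    rw [ep_of_ne h, ep_of_ne h', map_sub, cj_E, map_one]

lemma cj_I (σ : K ≃ₐ[ℚ] K) (w : List K) : cj σ (I w) = I (w.map σ) := by
  classical
  induction w with
  | nil => rw [List.map_nil, I_nil, map_one]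
  | cons α w ih => rw [List.map_cons, I_cons, I_cons, cj_J, map_mul, cj_ep, ih]

/-- The action on indices. -/
def act (σ : K ≃ₐ[ℚ] K) (x : K × List K) : K × List K := (σ x.1, x.2.map σ)

lemma cj_g (σ : K ≃ₐ[ℚ] K) (x : K × List K) : cj σ (g x) = g (act σ x) := by
  rw [g, g, map_mul, cj_E, cj_I]
  rfl

lemma adm_map (σ : K ≃ₐ[ℚ] K) {w : List K} (h : Adm w) : Adm (w.map σ) := by
  induction w with
  | nil => exact h
  | cons α w ih =>
    rw [List.map_cons]
    refine ⟨?_, ih h.2⟩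
    rcases h.1 with h1 | h1
    · left; simpa using h1
    · right; simpa using h1

lemma cj_mem {f : PowerSeries K} (hf : f ∈ Wsp K) (σ : K ≃ₐ[ℚ] K) : cj σ f ∈ Wsp K := by
  induction hf using Submodule.span_induction with
  | mem x hx =>
    obtain ⟨y, hy, rfl⟩ := hx
    rw [cj_g]
    exact g_mem (adm_map σ hy)
  | zero => rw [map_zero]; exact Submodule.zero_mem _
  | add x y _ _ hx hy => rw [map_add]; exact Submodule.add_mem _ hx hy
  | smul c x _ hx => rw [cj_smul]; exact Submodule.smul_mem _ _ hx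

/-! ### Rational power series -/

/-- The inclusion of rational power series. -/
noncomputable def iQ : PowerSeries ℚ →+* PowerSeries K := PowerSeries.map (algebraMap ℚ K)

lemma coeff_iQ (f : PowerSeries ℚ) (n : ℕ) :
    PowerSeries.coeff n (iQ f : PowerSeries K) = algebraMap ℚ K (PowerSeries.coeff n f) := by
  simp [iQ]

lemma iQ_injective : Function.Injective (iQ : PowerSeries ℚ → PowerSeries K) := by
  intro f g h
  ext n
  have := congrArg (PowerSeries.coeff n) h
  rw [coeff_iQ, coeff_iQ] at this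
  exact (algebraMap ℚ K).injective this

lemma iQ_ths (f : PowerSeries ℚ) : (iQ (SS.ths f) : PowerSeries K) = th (iQ f) := by
  ext n
  rw [coeff_iQ, SS.coeff_ths, coeff_th, coeff_iQ, map_mul, map_natCast]

lemma iQ_smul (c : ℚ) (f : PowerSeries ℚ) :
    (iQ (c • f) : PowerSeries K) = algebraMap ℚ K c • iQ f := by
  ext n
  rw [coeff_iQ, PowerSeries.coeff_smul, PowerSeries.coeff_smul, coeff_iQ, smul_eq_mul, smul_eq_mul,
    map_mul]

/-- The averaged trace. -/
noncomputable def Tr (f : PowerSeries K) : PowerSeries ℚ :=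
  PowerSeries.mk fun n => (Module.finrank ℚ K : ℚ)⁻¹ * Algebra.trace ℚ K (PowerSeries.coeff n f)

lemma coeff_Tr (f : PowerSeries K) (n : ℕ) : PowerSeries.coeff n (Tr f) =
    (Module.finrank ℚ K : ℚ)⁻¹ * Algebra.trace ℚ K (PowerSeries.coeff n f) := by
  simp [Tr]

lemma Tr_iQ (f : PowerSeries ℚ) : Tr (iQ f : PowerSeries K) = f := by
  ext n
  rw [coeff_Tr, coeff_iQ, Algebra.trace_algebraMap]
  have : (Module.finrank ℚ K : ℚ) ≠ 0 := by
    exact_mod_cast (Module.finrank_pos (R := ℚ) (M := K)).ne'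
  rw [nsmul_eq_mul]
  field_simp

lemma Tr_add (f g : PowerSeries K) : Tr (f + g) = Tr f + Tr g := by
  ext n
  simp only [coeff_Tr, map_add]
  ring

lemma Tr_X_mul (f : PowerSeries K) : Tr (PowerSeries.X * f) = PowerSeries.X * Tr f := by
  ext n
  cases n with
  | zero => simp [coeff_Tr]
  | succ n => rw [coeff_Tr, PowerSeries.coeff_succ_X_mul, PowerSeries.coeff_succ_X_mul, coeff_Tr]

lemma iQ_Tr [IsGalois ℚ K] (f : PowerSeries K) :
    (iQ (Tr f) : PowerSeries K) = (Module.finrank ℚ K : K)⁻¹ • ∑ σ : K ≃ₐ[ℚ] K, cj σ f := by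
  ext n
  rw [coeff_iQ, coeff_Tr, map_mul, trace_eq_sum_automorphisms, PowerSeries.coeff_smul, map_sum,
    smul_eq_mul]
  simp only [coeff_cj]
  congr 1
  rw [map_inv₀, map_natCast]

/-- A power series fixed by all conjugations is rational. -/
lemma exists_iQ [IsGalois ℚ K] {f : PowerSeries K} (h : ∀ σ : K ≃ₐ[ℚ] K, cj σ f = f) :
    ∃ f₀ : PowerSeries ℚ, iQ f₀ = f := by
  refine ⟨Tr f, ?_⟩
  rw [iQ_Tr]
  simp only [h, Finset.sum_const, Finset.card_univ]
  rw [← Nat.card_eq_fintype_card, IsGalois.card_aut_eq_finrank]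
  have : (Module.finrank ℚ K : K) ≠ 0 := by
    exact_mod_cast (Module.finrank_pos (R := ℚ) (M := K)).ne'
  rw [← Nat.cast_smul_eq_nsmul K, smul_smul, inv_mul_cancel₀ this, one_smul]

/-- Rational `E`-functions. -/
lemma isE_of_EK {f : PowerSeries ℚ} (h : EK (iQ f : PowerSeries K)) : SS.IsE f := by
  obtain ⟨C, d, hC, hd0, hd, ha, hi⟩ := h.exists_bound
  obtain ⟨σ⟩ : Nonempty (K →+* ℂ) := inferInstance
  refine ⟨⟨C, d, hC, hd, hd0, fun n => ?_, fun n k hk => ?_⟩⟩
  · have h1 := ha σ n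
    rw [coeff_iQ] at h1
    have h2 : σ ((n.factorial : K) * algebraMap ℚ K (PowerSeries.coeff n f)) =
        (((n.factorial : ℚ) * PowerSeries.coeff n f : ℚ) : ℂ) := by
      rw [map_mul, map_natCast]
      have : σ (algebraMap ℚ K (PowerSeries.coeff n f)) = ((PowerSeries.coeff n f : ℚ) : ℂ) := by
        have := RingHom.congr_fun (Subsingleton.elim (σ.comp (algebraMap ℚ K))
          (algebraMap ℚ ℂ)) (PowerSeries.coeff n f)
        simpa using this
      rw [this]
      push_cast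
      ring
    rw [h2] at h1
    have h3 : ‖(((n.factorial : ℚ) * PowerSeries.coeff n f : ℚ) : ℂ)‖ =
        ((|(n.factorial : ℚ) * PowerSeries.coeff n f| : ℚ) : ℝ) := by
      rw [← Complex.ofReal_ratCast, Complex.norm_real, Real.norm_eq_abs]
      push_cast
      rfl
    rw [h3] at h1
    exact_mod_cast h1
  · have h1 := hi n k hk
    rw [coeff_iQ] at h1
    have h2 : (d n : K) * ((k.factorial : K) * algebraMap ℚ K (PowerSeries.coeff k f)) =
        algebraMap ℚ K ((d n : ℚ) * ((k.factorial : ℚ) * PowerSeries.coeff k f)) := by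
      rw [map_mul, map_mul, map_natCast, map_natCast]
    rw [h2, isIntegral_algebraMap_iff (algebraMap ℚ K).injective] at h1
    obtain ⟨m, hm⟩ := IsIntegrallyClosed.isIntegral_iff.1 h1
    exact ⟨m, by rw [← hm]; simp⟩

end Pool.Agent.EF
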