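import Pool.Agent.EF.Alg
import Pool.Agent.SS.Values

/-!
# `E`-functions over a number field
-/

set_option linter.unusedSectionVars false

open Polynomial

namespace Pool.Agent.EF

variable {K : Type*} [Field K] [NumberField K]

/-- `f = ∑ a n / n! X^n` is an `E`-function (in the strict sense) with coefficients in `K`. -/
structure EK (f : PowerSeries K) : Prop where
  exists_bound : ∃ (C : ℕ) (d : ℕ → ℕ), 1 ≤ C ∧ (∀ n, 0 < d n) ∧ (∀ n, d n ≤ C ^ (n + 1)) ∧
    (∀ (σ : K →+* ℂ) n, ‖σ ((n.factorial : K) * PowerSeries.coeff n f)‖ ≤ (C : ℝ) ^ (n + 1)) ∧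
    ∀ n k, k ≤ n → IsIntegral ℤ ((d n : K) * ((k.factorial : K) * PowerSeries.coeff k f))

lemma isIntegral_natCast (n : ℕ) : IsIntegral ℤ (n : K) := by
  have : (n : K) = algebraMap ℤ K n := by simp
  rw [this]
  exact isIntegral_algebraMap

/-- denominators -/
lemma exists_den (c : K) : ∃ D : ℕ, 0 < D ∧ IsIntegral ℤ ((D : K) * c) := by
  have h1 : IsAlgebraic ℤ c := by
    have : IsAlgebraic ℚ c := Algebra.IsAlgebraic.isAlgebraic c
    exact (IsFractionRing.isAlgebraic_iff ℤ ℚ K).2 this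
  obtain ⟨y, hy0, hy⟩ := h1.exists_integral_multiple
  refine ⟨y.natAbs, Int.natAbs_pos.2 hy0, ?_⟩
  rcases Int.natAbs_eq y with h | h
  · have : ((y.natAbs : ℕ) : K) * c = y • c := by
      rw [zsmul_eq_mul]
      congr 1
      conv_rhs => rw [h]
      simp
    rw [this]; exact hy
  · have : ((y.natAbs : ℕ) : K) * c = -(y • c) := by
      rw [zsmul_eq_mul]
      conv_rhs => rw [h]
      simp
    rw [this]; exact hy.neg

/-- absolute bounds -/
lemma exists_norm_bound (c : K) : ∃ B : ℕ, ∀ σ : K →+* ℂ, ‖σ c‖ ≤ B := by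
  obtain ⟨B, hB⟩ := exists_nat_ge (∑ σ : K →+* ℂ, ‖σ c‖)
  exact ⟨B, fun σ => (Finset.single_le_sum (f := fun σ : K →+* ℂ => ‖σ c‖)
    (fun _ _ => norm_nonneg _) (Finset.mem_univ σ)).trans hB⟩

lemma EK.add {f g : PowerSeries K} (hf : EK f) (hg : EK g) : EK (f + g) := by
  obtain ⟨C₁, d₁, hC₁, hd₁0, hd₁, ha₁, hi₁⟩ := hf.exists_bound
  obtain ⟨C₂, d₂, hC₂, hd₂0, hd₂, ha₂, hi₂⟩ := hg.exists_bound
  have h1 : ∀ n, (C₁ : ℝ) ^ (n + 1) + (C₂ : ℝ) ^ (n + 1) ≤ ((C₁ + C₂) * (C₁ + C₂) : ℝ) ^ (n + 1) := by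
    intro n
    have e1 : (0 : ℝ) ≤ C₁ := by positivity
    have e2 : (1 : ℝ) ≤ C₁ := by exact_mod_cast hC₁
    have e3 : (1 : ℝ) ≤ C₂ := by exact_mod_cast hC₂
    have e4 : (C₁ : ℝ) ^ (n + 1) + (C₂ : ℝ) ^ (n + 1) ≤ ((C₁ : ℝ) + C₂) ^ (n + 1) :=
      pow_add_pow_le (by positivity) (by positivity) (Nat.succ_ne_zero n)
    refine e4.trans (pow_le_pow_left₀ (by positivity) ?_ _)
    nlinarith
  refine ⟨⟨(C₁ + C₂) * (C₁ + C₂), fun n => d₁ n * d₂ n, ?_, fun n => Nat.mul_pos (hd₁0 n) (hd₂0 n),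
    fun n => ?_, fun σ n => ?_, fun n k hk => ?_⟩⟩
  · exact Nat.mul_pos (by omega) (by omega)
  · rw [mul_pow]
    apply Nat.mul_le_mul
    · exact (hd₁ n).trans (Nat.pow_le_pow_left (by omega) _)
    · exact (hd₂ n).trans (Nat.pow_le_pow_left (by omega) _)
  · rw [map_add (PowerSeries.coeff n), mul_add, map_add]
    refine (norm_add_le _ _).trans ((add_le_add (ha₁ σ n) (ha₂ σ n)).trans ?_)
    push_cast
    exact h1 n
  · have : ((d₁ n * d₂ n : ℕ) : K) * ((k.factorial : K) * PowerSeries.coeff k (f + g)) =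
        (d₂ n : K) * ((d₁ n : K) * ((k.factorial : K) * PowerSeries.coeff k f)) +
        (d₁ n : K) * ((d₂ n : K) * ((k.factorial : K) * PowerSeries.coeff k g)) := by
      rw [map_add]; push_cast; ring
    rw [this]
    exact ((isIntegral_natCast _).mul (hi₁ n k hk)).add ((isIntegral_natCast _).mul (hi₂ n k hk))

lemma EK.zero : EK (0 : PowerSeries K) := by
  refine ⟨⟨1, fun _ => 1, le_rfl, fun _ => one_pos, fun n => by simp, fun σ n => by simp,
    fun n k _ => ?_⟩⟩
  simp only [map_zero, mul_zero]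
  exact isIntegral_zero

lemma EK.smul {f : PowerSeries K} (hf : EK f) (c : K) : EK (c • f) := by
  obtain ⟨C, d, hC, hd0, hd, ha, hi⟩ := hf.exists_bound
  obtain ⟨D, hD0, hD⟩ := exists_den c
  obtain ⟨B, hB⟩ := exists_norm_bound c
  have hDB : 1 ≤ D + B := by omega
  refine ⟨⟨C * (D + B), fun n => d n * D, ?_, fun n => Nat.mul_pos (hd0 n) hD0, fun n => ?_,
    fun σ n => ?_, fun n k hk => ?_⟩⟩
  · exact Nat.mul_pos hC hDB
  · rw [mul_pow]
    apply Nat.mul_le_mul (hd n)
    calc D ≤ D + B := Nat.le_add_right _ _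
      _ ≤ (D + B) ^ (n + 1) := Nat.le_self_pow (Nat.succ_ne_zero _) _
  · rw [PowerSeries.coeff_smul, smul_eq_mul, show (n.factorial : K) * (c * PowerSeries.coeff n f) =
      c * ((n.factorial : K) * PowerSeries.coeff n f) by ring, map_mul, norm_mul]
    push_cast
    rw [mul_pow, mul_comm]
    apply mul_le_mul (ha σ n) _ (norm_nonneg _) (by positivity)
    refine (hB σ).trans ?_
    have h1 : ((D + B : ℕ) : ℝ) ≤ ((D + B : ℕ) : ℝ) ^ (n + 1) := by
      exact_mod_cast Nat.le_self_pow (Nat.succ_ne_zero _) _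
    push_cast at h1
    refine le_trans ?_ h1
    have : (0 : ℝ) ≤ D := by positivity
    linarith
  · have : ((d n * D : ℕ) : K) * ((k.factorial : K) * PowerSeries.coeff k (c • f)) =
        ((D : K) * c) * ((d n : K) * ((k.factorial : K) * PowerSeries.coeff k f)) := by
      rw [PowerSeries.coeff_smul, smul_eq_mul]; push_cast; ring
    rw [this]
    exact hD.mul (hi n k hk)

lemma EK.sub {f g : PowerSeries K} (hf : EK f) (hg : EK g) : EK (f - g) := by
  have : f - g = f + (-1 : K) • g := by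
    rw [neg_smul, one_smul, sub_eq_add_neg]
  rw [this]
  exact hf.add (hg.smul _)

lemma factorial_coeff_mul (f g : PowerSeries K) (n : ℕ) :
    (n.factorial : K) * PowerSeries.coeff n (f * g) =
      ∑ j ∈ Finset.range (n + 1), (n.choose j : K) *
        ((j.factorial : K) * PowerSeries.coeff j f) *
        (((n - j).factorial : K) * PowerSeries.coeff (n - j) g) := by
  rw [PowerSeries.coeff_mul, Finset.Nat.sum_antidiagonal_eq_sum_range_succ_mk, Finset.mul_sum]
  refine Finset.sum_congr rfl fun j hj => ?_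
  have hjn : j ≤ n := Nat.lt_succ_iff.1 (Finset.mem_range.1 hj)
  have h3 : ((n.choose j : ℕ) : K) * ((j.factorial : K) * ((n - j).factorial : K)) =
      n.factorial := by
    rw [← mul_assoc]
    exact_mod_cast Nat.choose_mul_factorial_mul_factorial hjn
  rw [← h3]; ring

lemma EK.mul {f g : PowerSeries K} (hf : EK f) (hg : EK g) : EK (f * g) := by
  obtain ⟨C₁, d₁, hC₁, hd₁0, hd₁, ha₁, hi₁⟩ := hf.exists_bound
  obtain ⟨C₂, d₂, hC₂, hd₂0, hd₂, ha₂, hi₂⟩ := hg.exists_bound
  have hC12 : 1 ≤ C₁ + C₂ := by omega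
  refine ⟨⟨(C₁ + C₂) ^ 2, fun n => d₁ n * d₂ n, Nat.one_le_pow _ _ (by omega),
    fun n => Nat.mul_pos (hd₁0 n) (hd₂0 n), fun n => ?_, fun σ n => ?_, fun n k hk => ?_⟩⟩
  · calc d₁ n * d₂ n ≤ C₁ ^ (n + 1) * C₂ ^ (n + 1) := Nat.mul_le_mul (hd₁ n) (hd₂ n)
      _ ≤ (C₁ + C₂) ^ (n + 1) * (C₁ + C₂) ^ (n + 1) := by
        apply Nat.mul_le_mul <;> exact Nat.pow_le_pow_left (by omega) _
      _ = _ := by rw [← mul_pow]; congr 1; ring
  · rw [factorial_coeff_mul, map_sum]
    refine (norm_sum_le _ _).trans ?_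
    have h1 : ∀ j ∈ Finset.range (n + 1), ‖σ ((n.choose j : K) *
        ((j.factorial : K) * PowerSeries.coeff j f) *
        (((n - j).factorial : K) * PowerSeries.coeff (n - j) g))‖ ≤
        (C₁ * C₂) * ((C₁ : ℝ) ^ j * (C₂ : ℝ) ^ (n - j) * (n.choose j : ℝ)) := by
      intro j hj
      rw [map_mul, map_mul, norm_mul, norm_mul, map_natCast, Complex.norm_natCast]
      calc (n.choose j : ℝ) * ‖σ ((j.factorial : K) * PowerSeries.coeff j f)‖ *
          ‖σ (((n - j).factorial : K) * PowerSeries.coeff (n - j) g)‖ ≤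
          (n.choose j : ℝ) * (C₁ : ℝ) ^ (j + 1) * (C₂ : ℝ) ^ (n - j + 1) := by
            apply mul_le_mul _ (ha₂ σ _) (norm_nonneg _) (by positivity)
            exact mul_le_mul_of_nonneg_left (ha₁ σ _) (by positivity)
        _ = _ := by ring
    refine (Finset.sum_le_sum h1).trans ?_
    rw [← Finset.mul_sum, ← add_pow]
    push_cast
    have hp1 : (1 : ℝ) ≤ C₁ + C₂ := by exact_mod_cast hC12
    have hc1 : (C₁ : ℝ) ≤ C₁ + C₂ := by
      have : (0 : ℝ) ≤ C₂ := by positivity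
      linarith
    have hc2 : (C₂ : ℝ) ≤ C₁ + C₂ := by
      have : (0 : ℝ) ≤ C₁ := by positivity
      linarith
    calc (C₁ * C₂ : ℝ) * (C₁ + C₂) ^ n ≤ ((C₁ + C₂) * (C₁ + C₂)) * (C₁ + C₂) ^ n := by
          gcongr
      _ = ((C₁ : ℝ) + C₂) ^ (n + 2) := by ring
      _ ≤ ((C₁ : ℝ) + C₂) ^ (2 * (n + 1)) := pow_le_pow_right₀ hp1 (by omega)
      _ = _ := by rw [pow_mul]
  · rw [factorial_coeff_mul, Finset.mul_sum]
    refine IsIntegral.sum _ fun j hj => ?_
    have hjk : j ≤ k := Nat.lt_succ_iff.1 (Finset.mem_range.1 hj)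
    have : ((d₁ n * d₂ n : ℕ) : K) * ((k.choose j : K) *
        ((j.factorial : K) * PowerSeries.coeff j f) *
        (((k - j).factorial : K) * PowerSeries.coeff (k - j) g)) =
        (k.choose j : K) * ((d₁ n : K) * ((j.factorial : K) * PowerSeries.coeff j f)) *
        ((d₂ n : K) * (((k - j).factorial : K) * PowerSeries.coeff (k - j) g)) := by
      push_cast; ring
    rw [this]
    exact ((isIntegral_natCast _).mul (hi₁ n j (by omega))).mul (hi₂ n (k - j) (by omega))

lemma EK.E (β : K) : EK (E β) := by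
  obtain ⟨D, hD0, hD⟩ := exists_den β
  obtain ⟨B, hB⟩ := exists_norm_bound β
  have hDB : 1 ≤ D + B := by omega
  have hcoef : ∀ n : ℕ, (n.factorial : K) * PowerSeries.coeff n (EF.E β) = β ^ n := by
    intro n
    rw [coeff_E]
    have h2 : (n.factorial : K) ≠ 0 := by exact_mod_cast n.factorial_ne_zero
    field_simp
  refine ⟨⟨D + B, fun n => D ^ n, hDB, fun n => pow_pos hD0 n, fun n => ?_, fun σ n => ?_,
    fun n k hk => ?_⟩⟩
  · calc D ^ n ≤ (D + B) ^ n := Nat.pow_le_pow_left (by omega) _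
      _ ≤ (D + B) ^ (n + 1) := Nat.pow_le_pow_right (by omega) (by omega)
  · rw [hcoef, map_pow, norm_pow]
    have h1 : ((D + B : ℕ) : ℝ) ^ n ≤ ((D + B : ℕ) : ℝ) ^ (n + 1) := by
      exact_mod_cast Nat.pow_le_pow_right (by omega) (by omega)
    refine le_trans (pow_le_pow_left₀ (norm_nonneg _) ?_ n) h1
    refine (hB σ).trans ?_
    push_cast
    have : (0 : ℝ) ≤ D := by positivity
    linarith
  · rw [hcoef]
    have : ((D ^ n : ℕ) : K) * β ^ k = ((D ^ (n - k) : ℕ) : K) * ((D : K) * β) ^ k := by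
      have h7 : (D : K) ^ n = (D : K) ^ (n - k) * (D : K) ^ k := by
        rw [← pow_add]; congr 1; omega
      push_cast
      rw [h7, mul_pow]; ring
    rw [this]
    exact (isIntegral_natCast _).mul (hD.pow k)

lemma EK.J {f : PowerSeries K} (hf : EK f) : EK (J f) := by
  obtain ⟨C, d, hC, hd0, hd, ha, hi⟩ := hf.exists_bound
  refine ⟨⟨C * 219, fun n => d n * Nat.lcmUpto n, Nat.mul_pos hC (by norm_num),
    fun n => Nat.mul_pos (hd0 n) (Nat.lcmUpto_pos n), fun n => ?_, fun σ n => ?_,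
    fun n k hk => ?_⟩⟩
  · rw [mul_pow]
    apply Nat.mul_le_mul (hd n)
    exact (SS.lcmUpto_le_pow n).trans (Nat.pow_le_pow_right (by norm_num) (by omega))
  · rw [coeff_J]
    rcases Nat.eq_zero_or_pos n with rfl | hn
    · simp only [Nat.cast_zero, div_zero, mul_zero, map_zero, norm_zero]
      positivity
    · rw [← mul_div_assoc, map_div₀, norm_div, map_natCast, Complex.norm_natCast]
      refine (div_le_self (norm_nonneg _) (by exact_mod_cast hn)).trans ((ha σ n).trans ?_)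
      push_cast
      apply pow_le_pow_left₀ (by positivity)
      have : (0 : ℝ) ≤ C := by positivity
      linarith
  · rw [coeff_J]
    rcases Nat.eq_zero_or_pos k with rfl | hk0
    · simp only [Nat.cast_zero, div_zero, mul_zero]
      exact isIntegral_zero
    · obtain ⟨e, he⟩ := SS.dvd_lcmUpto' hk0 hk
      have hk1 : (k : K) ≠ 0 := by exact_mod_cast hk0.ne'
      have : ((d n * Nat.lcmUpto n : ℕ) : K) *
          ((k.factorial : K) * (PowerSeries.coeff k f / k)) =
          (e : K) * ((d n : K) * ((k.factorial : K) * PowerSeries.coeff k f)) := by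
        rw [he]
        push_cast
        field_simp
      rw [this]
      exact (isIntegral_natCast _).mul (hi n k hk)

lemma EK.one : EK (1 : PowerSeries K) := by
  rw [← E_zero]
  exact EK.E 0

lemma EK.ep (α : K) [Decidable (α = 0)] : EK (ep α) := by
  by_cases h : α = 0
  · unfold EF.ep
    rw [if_pos h]
    exact EK.one
  · rw [ep_of_ne h]
    exact (EK.E α).sub EK.one

lemma EK.I (w : List K) : EK (I w) := by
  classical
  induction w with
  | nil => exact EK.one
  | cons α w ih =>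
    rw [I_cons]
    exact ((EK.ep α).mul ih).J

lemma EK.g (x : K × List K) : EK (g x) := (EK.E _).mul (EK.I _)

lemma EK.of_mem {f : PowerSeries K} (hf : f ∈ Wsp K) : EK f := by
  induction hf using Submodule.span_induction with
  | mem x hx =>
    obtain ⟨y, _, rfl⟩ := hx
    exact EK.g y
  | zero => exact EK.zero
  | add x y _ _ hx hy => exact hx.add hy
  | smul c x _ hx => exact hx.smul c

end Pool.Agent.EF
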