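import Pool.Agent.EF.Values

/-!
# Complex evaluation at `1`, and the main theorem
-/

set_option linter.unusedSectionVars false

open Polynomial

namespace Pool.Agent.EF

variable {K : Type*} [Field K] [NumberField K]

/-- Value at `1` under a complex embedding. -/
noncomputable def evC (φ : K →+* ℂ) (f : PowerSeries K) : ℂ := ∑' n, φ (PowerSeries.coeff n f)

lemma EK.summable_norm {f : PowerSeries K} (hf : EK f) (φ : K →+* ℂ) :
    Summable fun n => ‖φ (PowerSeries.coeff n f)‖ := by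
  obtain ⟨C, d, hC, hd0, hd, ha, hi⟩ := hf.exists_bound
  have h1 : Summable fun n : ℕ => (C : ℝ) * ((C : ℝ) ^ n / n.factorial) :=
    (Real.summable_pow_div_factorial (C : ℝ)).mul_left _
  refine Summable.of_nonneg_of_le (fun _ => norm_nonneg _) (fun n => ?_) h1
  have h2 := ha φ n
  rw [map_mul, map_natCast, norm_mul, Complex.norm_natCast] at h2
  have h3 : (0 : ℝ) < n.factorial := by positivity
  rw [← mul_div_assoc, le_div_iff₀ h3]
  rw [pow_succ] at h2
  linarith

lemma EK.summable {f : PowerSeries K} (hf : EK f) (φ : K →+* ℂ) :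
    Summable fun n => φ (PowerSeries.coeff n f) := (hf.summable_norm φ).of_norm

lemma evC_add {f h : PowerSeries K} (hf : EK f) (hh : EK h) (φ : K →+* ℂ) :
    evC φ (f + h) = evC φ f + evC φ h := by
  unfold evC
  rw [← (hf.summable φ).tsum_add (hh.summable φ)]
  congr 1
  ext n
  rw [map_add, map_add]

lemma evC_smul (c : K) (f : PowerSeries K) (φ : K →+* ℂ) :
    evC φ (c • f) = φ c * evC φ f := by
  unfold evC
  rw [← tsum_mul_left]
  congr 1
  ext n
  rw [PowerSeries.coeff_smul, smul_eq_mul, map_mul]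

lemma evC_zero (φ : K →+* ℂ) : evC φ 0 = 0 := by simp [evC]

lemma evC_sum {ι : Type*} (s : Finset ι) (f : ι → PowerSeries K) (h : ∀ i ∈ s, EK (f i))
    (φ : K →+* ℂ) : EK (∑ i ∈ s, f i) ∧ evC φ (∑ i ∈ s, f i) = ∑ i ∈ s, evC φ (f i) := by
  classical
  induction s using Finset.induction_on with
  | empty => simp [evC_zero, EK.zero]
  | insert a s ha ih =>
    obtain ⟨h1, h2⟩ := ih fun i hi => h i (Finset.mem_insert_of_mem hi)
    rw [Finset.sum_insert ha, Finset.sum_insert ha]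
    exact ⟨(h a (Finset.mem_insert_self _ _)).add h1, by
      rw [evC_add (h a (Finset.mem_insert_self _ _)) h1, h2]⟩

lemma evC_mul {f h : PowerSeries K} (hf : EK f) (hh : EK h) (φ : K →+* ℂ) :
    evC φ (f * h) = evC φ f * evC φ h := by
  unfold evC
  rw [tsum_mul_tsum_eq_tsum_sum_antidiagonal_of_summable_norm (hf.summable_norm φ)
    (hh.summable_norm φ)]
  congr 1
  ext n
  rw [PowerSeries.coeff_mul, map_sum]
  simp only [map_mul]

lemma evC_one (φ : K →+* ℂ) : evC φ 1 = 1 := by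
  unfold evC
  rw [tsum_eq_single 0]
  · simp
  · intro n hn
    rw [PowerSeries.coeff_one, if_neg hn, map_zero]

lemma evC_prod {ι : Type*} (s : Finset ι) (f : ι → PowerSeries K) (h : ∀ i ∈ s, EK (f i))
    (φ : K →+* ℂ) : EK (∏ i ∈ s, f i) ∧ evC φ (∏ i ∈ s, f i) = ∏ i ∈ s, evC φ (f i) := by
  classical
  induction s using Finset.induction_on with
  | empty => simp [evC_one, EK.one]
  | insert a s ha ih =>
    obtain ⟨h1, h2⟩ := ih fun i hi => h i (Finset.mem_insert_of_mem hi)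
    rw [Finset.prod_insert ha, Finset.prod_insert ha]
    exact ⟨(h a (Finset.mem_insert_self _ _)).mul h1, by
      rw [evC_mul (h a (Finset.mem_insert_self _ _)) h1, h2]⟩

lemma evC_iQ (f : PowerSeries ℚ) (φ : K →+* ℂ) :
    evC φ (iQ f) = ((SS.ev f : ℝ) : ℂ) := by
  unfold evC SS.ev
  rw [Complex.ofReal_tsum]
  congr 1
  ext n
  rw [coeff_iQ]
  have := RingHom.congr_fun (Subsingleton.elim (φ.comp (algebraMap ℚ K))
    (algebraMap ℚ ℂ)) (PowerSeries.coeff n f)
  simp

lemma cj_cj (σ τ : K ≃ₐ[ℚ] K) (f : PowerSeries K) : cj σ (cj τ f) = cj (σ * τ) f := by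
  ext n
  rw [coeff_cj, coeff_cj, coeff_cj]
  rfl

lemma cj_one (f : PowerSeries K) : cj 1 f = f := by
  ext n
  rw [coeff_cj]
  rfl

/-- **Main theorem.** A nonzero element of `W` does not vanish at `1`. -/
theorem evC_ne_zero [IsGalois ℚ K] {f : PowerSeries K} (hf : f ∈ Wsp K) (φ : K →+* ℂ)
    (h0 : evC φ f = 0) : f = 0 := by
  classical
  set N : PowerSeries K := ∏ σ : K ≃ₐ[ℚ] K, cj σ f with hN
  have hEK : ∀ σ ∈ (Finset.univ : Finset (K ≃ₐ[ℚ] K)), EK (cj σ f) :=
    fun σ _ => EK.of_mem (cj_mem hf σ)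
  have hNW : N ∈ Wsp K := by
    have : N ∈ W K := Subalgebra.prod_mem _ fun σ _ => cj_mem hf σ
    exact this
  have hNev : evC φ N = 0 := by
    rw [hN, (evC_prod Finset.univ _ hEK φ).2]
    apply Finset.prod_eq_zero (Finset.mem_univ 1)
    rw [cj_one, h0]
  have hNinv : ∀ τ : K ≃ₐ[ℚ] K, cj τ N = N := by
    intro τ
    rw [hN, map_prod]
    simp only [cj_cj]
    exact Fintype.prod_equiv (Equiv.mulLeft τ) _ _ fun σ => rfl
  obtain ⟨N₀, hN₀⟩ := exists_iQ hNinv
  have h1 : SS.ev N₀ = 0 := by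
    rw [← hN₀, evC_iQ] at hNev
    exact_mod_cast hNev
  have h2 : N₀ = 0 := ssQ (K := K) (by rw [hN₀]; exact hNW) h1
  rw [h2, map_zero] at hN₀
  rw [hN] at hN₀
  obtain ⟨σ, _, hσ⟩ := Finset.prod_eq_zero_iff.1 hN₀.symm
  have h3 : cj σ⁻¹ (cj σ f) = 0 := by rw [hσ, map_zero]
  rw [cj_cj, inv_mul_cancel, cj_one] at h3
  exact h3

end Pool.Agent.EF
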