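import Pool.Agent.EF.QBar

/-!
# The harmonic-number generating functions
-/

set_option linter.unusedSectionVars false

open Polynomial

namespace Pool.Agent.EF

section formal

variable {K : Type*} [Field K] [CharZero K]

/-- `∑_{n ≥ 1} z^n X^n / (n! n^j)`. -/
noncomputable def ee (j : ℕ) (z : K) : PowerSeries K :=
  PowerSeries.mk fun n => if n = 0 then 0 else z ^ n / ((n.factorial : K) * (n : K) ^ j)

lemma coeff_ee (j : ℕ) (z : K) (n : ℕ) : PowerSeries.coeff n (ee j z) =
    if n = 0 then 0 else z ^ n / ((n.factorial : K) * (n : K) ^ j) := by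
  simp [ee]

lemma ee_zero (z : K) : ee 0 z = E z - 1 := by
  ext n
  rw [coeff_ee, map_sub, coeff_E, PowerSeries.coeff_one]
  rcases Nat.eq_zero_or_pos n with rfl | hn
  · simp
  · rw [if_neg hn.ne', if_neg hn.ne', pow_zero, mul_one, sub_zero]

lemma J_ee (j : ℕ) (z : K) : J (ee j z) = ee (j + 1) z := by
  ext n
  rw [coeff_J, coeff_ee, coeff_ee]
  rcases Nat.eq_zero_or_pos n with rfl | hn
  · simp
  · rw [if_neg hn.ne', if_neg hn.ne', pow_succ, div_div, mul_assoc]

lemma I_rep {z : K} (hz : z ≠ 0) (j : ℕ) : I (List.replicate j 0 ++ [z]) = ee (j + 1) z := by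
  classical
  induction j with
  | zero =>
    rw [List.replicate_zero, List.nil_append, I_cons, I_nil, mul_one, ep_of_ne hz, ← ee_zero, J_ee]
  | succ j ih =>
    rw [List.replicate_succ, List.cons_append, I_cons, ih, ep_zero, one_mul, J_ee]

lemma UW_coe (z : K) (j : ℕ) : ((UW z j : W K) : PowerSeries K) = J (E (-z) * ee j z) := by
  classical
  by_cases hz : z = 0
  · subst hz
    rw [UW_zero_left]
    have h1 : ee j (0 : K) = 0 := by
      ext n
      rw [coeff_ee, map_zero]
      rcases Nat.eq_zero_or_pos n with rfl | hn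
      · simp
      · rw [if_neg hn.ne', zero_pow hn.ne', zero_div]
    rw [h1, mul_zero, J_zero]
    rfl
  · have hz' : -z ≠ 0 := neg_ne_zero.2 hz
    cases j with
    | zero =>
      rw [UW_zero hz, ee_zero, mul_sub, E_mul, neg_add_cancel, E_zero, mul_one]
      change -((IW [-z] : W K) : PowerSeries K) = _
      rw [IW_coe (adm_one hz'), I_cons, I_nil, mul_one, ep_of_ne hz']
      ext n
      rw [map_neg, coeff_J, coeff_J, map_sub, map_sub]
      ring
    | succ j =>
      rw [UW_succ hz]
      change ((IW _ : W K) : PowerSeries K) + ((IW _ : W K) : PowerSeries K) = _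
      rw [IW_coe (adm_cons_rep hz j), IW_coe (adm_rep hz (j + 1)), I_cons, ep_of_ne hz',
        List.replicate_succ, List.cons_append, I_cons, ep_zero, ← J_add, I_rep hz]
      congr 1
      ring

/-- Harmonic numbers. -/
noncomputable def hn (K : Type*) [Field K] (k n : ℕ) : K :=
  ∑ i ∈ Finset.range n, 1 / ((i : K) + 1) ^ k

/-- Generating function of the harmonic numbers. -/
noncomputable def AA (k : ℕ) (z : K) : PowerSeries K :=
  PowerSeries.mk fun n => hn K k n * z ^ n / n.factorial

lemma coeff_AA (k : ℕ) (z : K) (n : ℕ) :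
    PowerSeries.coeff n (AA k z) = hn K k n * z ^ n / n.factorial := by
  simp [AA]

lemma th_AA (j : ℕ) (z : K) : th (AA (j + 1) z) =
    PowerSeries.C z * PowerSeries.X * AA (j + 1) z + ee j z := by
  ext n
  rw [coeff_th, coeff_AA, map_add, mul_assoc, PowerSeries.coeff_C_mul, coeff_ee]
  cases n with
  | zero => simp
  | succ n =>
    rw [PowerSeries.coeff_succ_X_mul, coeff_AA, if_neg (Nat.succ_ne_zero n), hn, hn,
      Finset.sum_range_succ, Nat.factorial_succ]
    have h1 : ((n : K) + 1) ≠ 0 := by exact_mod_cast Nat.succ_ne_zero n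
    have h2 : (n.factorial : K) ≠ 0 := by exact_mod_cast n.factorial_ne_zero
    push_cast
    field_simp
    ring

lemma E_mul_AA (j : ℕ) (z : K) : E (-z) * AA (j + 1) z = J (E (-z) * ee j z) := by
  have h0 : PowerSeries.coeff 0 (E (-z) * AA (j + 1) z) = 0 := by
    rw [PowerSeries.coeff_zero_eq_constantCoeff_apply, map_mul,
      ← PowerSeries.coeff_zero_eq_constantCoeff_apply, ← PowerSeries.coeff_zero_eq_constantCoeff_apply,
      coeff_AA, hn]
    simp
  rw [← J_th h0, th_mul, th_E, th_AA]
  congr 1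
  rw [map_neg]
  ring

/-- The basic identity. -/
lemma AA_eq (j : ℕ) (z : K) : AA (j + 1) z = E z * ((UW z j : W K) : PowerSeries K) := by
  rw [UW_coe, ← E_mul_AA, ← mul_assoc, E_mul, add_neg_cancel, E_zero, one_mul]

end formal

end Pool.Agent.EF
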