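import Pool.Agent.EF.Basic

/-!
# Linear independence over `K[X]` of the functions `exp (β X) * I w`
-/

set_option linter.unusedSectionVars false

open Polynomial

namespace Pool.Agent.EF

variable {K : Type*} [Field K] [CharZero K]

/-- The Euler operator on polynomials. -/
noncomputable def thp (p : K[X]) : K[X] := X * derivative p

lemma coeff_thp (p : K[X]) (n : ℕ) : (thp p).coeff n = n * p.coeff n := by
  cases n with
  | zero => simp [thp]
  | succ n =>
    rw [thp, coeff_X_mul, coeff_derivative]
    push_cast
    ring

lemma th_coe (p : K[X]) : th (p : PowerSeries K) = ((thp p : K[X]) : PowerSeries K) := by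
  ext n
  rw [coeff_th, Polynomial.coeff_coe, Polynomial.coeff_coe, coeff_thp]

/-- A finite set of indices closed under the operations occurring in the derivative. -/
def Closed (F : Finset (K × List K)) : Prop :=
  ∀ β α w, (β, α :: w) ∈ F → (β, w) ∈ F ∧ (β + α, w) ∈ F

open Classical in
/-- The matrix of the derivation (without its diagonal part). -/
noncomputable def mm (x y : K × List K) : K :=
  match x with
  | (_, []) => 0
  | (β, α :: w) => if α = 0 then (if y = (β, w) then 1 else 0)
      else (if y = (β + α, w) then 1 else 0) - (if y = (β, w) then 1 else 0)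

lemma mm_nil (β : K) (y : K × List K) : mm (β, []) y = 0 := rfl

open Classical in
lemma mm_zero (β : K) (w : List K) (y : K × List K) :
    mm (β, 0 :: w) y = if y = (β, w) then 1 else 0 := by
  simp [mm]

open Classical in
lemma mm_cons {β α : K} (hα : α ≠ 0) (w : List K) (y : K × List K) :
    mm (β, α :: w) y = (if y = (β + α, w) then 1 else 0) - (if y = (β, w) then 1 else 0) := by
  simp [mm, hα]

lemma mm_length {x y : K × List K} (h : mm x y ≠ 0) : x.2.length = y.2.length + 1 := by
  classical
  obtain ⟨β, w⟩ := x
  cases w with
  | nil => exact absurd rfl h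
  | cons α w =>
    by_cases hα : α = 0
    · subst hα
      rw [mm_zero] at h
      by_cases h1 : y = (β, w)
      · rw [h1]; simp
      · rw [if_neg h1] at h; exact absurd rfl h
    · rw [mm_cons hα] at h
      by_cases h1 : y = (β, w)
      · rw [h1]; simp
      · by_cases h2 : y = (β + α, w)
        · rw [h2]; simp
        · rw [if_neg h1, if_neg h2, sub_zero] at h; exact absurd rfl h

lemma th_g_eq {F : Finset (K × List K)} (hF : Closed F) {x : K × List K} (hx : x ∈ F)
    (hadm : Adm x.2) :
    th (g x) = PowerSeries.C x.1 * PowerSeries.X * g x + ∑ y ∈ F, PowerSeries.C (mm x y) * g y := by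
  classical
  obtain ⟨β, w⟩ := x
  cases w with
  | nil =>
    rw [th_g_nil, Finset.sum_eq_zero, add_zero]
    intro y _
    rw [mm_nil]
    simp
  | cons α w =>
    obtain ⟨h1, h2⟩ := hF β α w hx
    by_cases hα : α = 0
    · subst hα
      rw [th_g_zero hadm]
      congr 1
      rw [Finset.sum_eq_single_of_mem (β, w) h1]
      · rw [mm_zero, if_pos rfl]; simp
      · intro y _ hy
        rw [mm_zero, if_neg hy]; simp
    · rw [th_g_cons hadm hα]
      congr 1
      simp only [mm_cons hα, map_sub, sub_mul, Finset.sum_sub_distrib]
      congr 1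
      · rw [Finset.sum_eq_single_of_mem (β + α, w) h2]
        · rw [if_pos rfl]; simp
        · intro y _ hy
          rw [if_neg hy]; simp
      · rw [Finset.sum_eq_single_of_mem (β, w) h1]
        · rw [if_pos rfl]; simp
        · intro y _ hy
          rw [if_neg hy]; simp

/-- The linear form in the functions `g x` with polynomial coefficients. -/
noncomputable def Phi (F : Finset (K × List K)) (u : K × List K → K[X]) : PowerSeries K :=
  ∑ x ∈ F, (u x : PowerSeries K) * g x

/-- The operator on coefficient vectors which corresponds to `th`. -/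
noncomputable def DF (F : Finset (K × List K)) (u : K × List K → K[X]) (y : K × List K) : K[X] :=
  thp (u y) + C y.1 * X * u y + ∑ x ∈ F, u x * C (mm x y)

lemma th_Phi {F : Finset (K × List K)} (hF : Closed F) (hadm : ∀ x ∈ F, Adm x.2)
    (u : K × List K → K[X]) : th (Phi F u) = Phi F (DF F u) := by
  have h1 : ∀ x ∈ F, th ((u x : PowerSeries K) * g x) =
      ((thp (u x) + C x.1 * X * u x : K[X]) : PowerSeries K) * g x +
        ∑ y ∈ F, ((u x * C (mm x y) : K[X]) : PowerSeries K) * g y := by
    intro x hx
    rw [th_mul, th_coe, th_g_eq hF hx (hadm x hx), mul_add, Finset.mul_sum]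
    simp only [Polynomial.coe_add, Polynomial.coe_mul, Polynomial.coe_C, Polynomial.coe_X]
    have : ∑ i ∈ F, (u x : PowerSeries K) * (PowerSeries.C (mm x i) * g i) =
        ∑ i ∈ F, (u x : PowerSeries K) * PowerSeries.C (mm x i) * g i :=
      Finset.sum_congr rfl fun i _ => by ring
    rw [this]
    ring
  unfold Phi
  rw [th_sum, Finset.sum_congr rfl h1, Finset.sum_add_distrib, Finset.sum_comm,
    ← Finset.sum_add_distrib]
  refine Finset.sum_congr rfl fun y _ => ?_
  rw [← Finset.sum_mul, ← add_mul]
  congr 1
  unfold DF
  rw [Polynomial.coe_add]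
  congr 1
  have := map_sum (Polynomial.coeToPowerSeries.ringHom : K[X] →+* PowerSeries K)
    (fun x => u x * C (mm x y)) F
  simp only [Polynomial.coeToPowerSeries.ringHom_apply] at this
  exact this.symm

lemma Phi_sub (F : Finset (K × List K)) (u v : K × List K → K[X]) :
    Phi F (fun x => u x - v x) = Phi F u - Phi F v := by
  unfold Phi
  rw [← Finset.sum_sub_distrib]
  refine Finset.sum_congr rfl fun x _ => ?_
  rw [Polynomial.coe_sub]
  ring

lemma Phi_mul (F : Finset (K × List K)) (q : K[X]) (u : K × List K → K[X]) :
    Phi F (fun x => q * u x) = (q : PowerSeries K) * Phi F u := by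
  unfold Phi
  rw [Finset.mul_sum]
  refine Finset.sum_congr rfl fun x _ => ?_
  rw [Polynomial.coe_mul]
  ring

/-! ### Three facts on polynomials -/

lemma poly1 {c : K[X]} {b : K} (hb : b ≠ 0) (d : ℕ)
    (h : thp c + C b * X * c = C (d : K) * c) : c = 0 := by
  by_contra hc
  have h1 := congrArg (fun p => p.coeff (c.natDegree + 1)) h
  simp only [coeff_add, coeff_thp, mul_assoc, coeff_C_mul, coeff_X_mul] at h1
  rw [coeff_eq_zero_of_natDegree_lt (Nat.lt_succ_self _)] at h1
  simp only [mul_zero, zero_add] at h1
  rcases mul_eq_zero.1 h1 with h2 | h2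
  · exact hb h2
  · exact hc (leadingCoeff_eq_zero.1 h2)

lemma poly2 {c : K[X]} {a k : K} (ha : a ≠ 0) (d : ℕ)
    (h : thp c + C a * X * c - C (d : K) * c + C k * X ^ d = 0) : k = 0 := by
  by_contra hk
  have hc : c ≠ 0 := by
    rintro rfl
    apply hk
    have h1 := congrArg (fun p => p.coeff d) h
    simp [coeff_thp] at h1
    exact h1
  have h1 := congrArg (fun p => p.coeff (c.natDegree + 1)) h
  simp only [coeff_add, coeff_sub, coeff_thp, mul_assoc, coeff_C_mul, coeff_X_mul, coeff_X_pow,
    coeff_zero] at h1
  rw [coeff_eq_zero_of_natDegree_lt (Nat.lt_succ_self _)] at h1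
  have hl : c.coeff c.natDegree ≠ 0 := fun h => hc (leadingCoeff_eq_zero.1 h)
  have hd : c.natDegree + 1 = d := by
    by_contra hne
    rw [if_neg hne] at h1
    simp only [mul_zero, zero_add, sub_zero, add_zero] at h1
    rcases mul_eq_zero.1 h1 with h2 | h2
    · exact ha h2
    · exact hl h2
  have hlt : c.natTrailingDegree < d := by
    have := natTrailingDegree_le_natDegree c
    omega
  have h2 := congrArg (fun p => p.coeff c.natTrailingDegree) h
  simp only [coeff_add, coeff_sub, coeff_thp, mul_assoc, coeff_C_mul, coeff_X_pow,
    coeff_zero] at h2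
  rw [if_neg hlt.ne] at h2
  have h3 : (X * c).coeff c.natTrailingDegree = 0 := by
    rcases Nat.eq_zero_or_pos c.natTrailingDegree with h0 | h0
    · rw [h0]; simp
    · obtain ⟨m, hm⟩ : ∃ m, c.natTrailingDegree = m + 1 := ⟨c.natTrailingDegree - 1, by omega⟩
      rw [hm, coeff_X_mul]
      exact coeff_eq_zero_of_lt_natTrailingDegree (by omega)
  rw [h3] at h2
  have h4 : ((c.natTrailingDegree : K) - d) * c.coeff c.natTrailingDegree = 0 := by
    linear_combination h2
  rcases mul_eq_zero.1 h4 with h5 | h5
  · have : (c.natTrailingDegree : K) = d := by linear_combination h5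
    exact hlt.ne (by exact_mod_cast this)
  · exact hc (trailingCoeff_eq_zero.1 h5)

/-- `thp c = d c` forces `c` to be a monomial. -/
lemma poly3 {c : K[X]} (d : ℕ) (h : thp c = C (d : K) * c) : c = C (c.coeff d) * X ^ d := by
  ext n
  rw [coeff_C_mul, coeff_X_pow]
  by_cases hn : n = d
  · rw [if_pos hn, hn, mul_one]
  · rw [if_neg hn, mul_zero]
    have h1 := congrArg (fun p => p.coeff n) h
    simp only [coeff_thp, coeff_C_mul] at h1
    have h2 : ((n : K) - d) * c.coeff n = 0 := by linear_combination h1
    rcases mul_eq_zero.1 h2 with h3 | h3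
    · exact absurd (by exact_mod_cast (sub_eq_zero.1 h3)) hn
    · exact h3

lemma thp_natDegree_lt {q : K[X]} (h : thp q - C (q.natDegree : K) * q ≠ 0) :
    (thp q - C (q.natDegree : K) * q).natDegree < q.natDegree := by
  have h1 : (thp q - C (q.natDegree : K) * q).natDegree ≤ q.natDegree := by
    rw [natDegree_le_iff_coeff_eq_zero]
    intro n hn
    rw [coeff_sub, coeff_thp, coeff_C_mul, coeff_eq_zero_of_natDegree_lt hn]
    ring
  refine lt_of_le_of_ne h1 fun h2 => ?_
  apply h
  rw [← leadingCoeff_eq_zero, leadingCoeff, h2, coeff_sub, coeff_thp, coeff_C_mul, sub_self]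

/-! ### The independence theorem -/

section
variable {F : Finset (K × List K)}

/-- A nontrivial relation with words of length at most `n`. -/
structure Bad (F : Finset (K × List K)) (n : ℕ) (u : K × List K → K[X]) : Prop where
  len : ∀ x ∈ F, n < x.2.length → u x = 0
  rel : Phi F u = 0
  ne : ∃ x ∈ F, u x ≠ 0

open Classical in
/-- The top support. -/
noncomputable def S (F : Finset (K × List K)) (n : ℕ) (u : K × List K → K[X]) :
    Finset (K × List K) := F.filter fun x => x.2.length = n ∧ u x ≠ 0

lemma mem_S {n : ℕ} {u : K × List K → K[X]} {x : K × List K} :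
    x ∈ S F n u ↔ x ∈ F ∧ x.2.length = n ∧ u x ≠ 0 := by
  classical
  simp only [S, Finset.mem_filter]

/-- The improved relation. -/
noncomputable def D (F : Finset (K × List K)) (b : K) (d : ℕ) (u : K × List K → K[X])
    (x : K × List K) : K[X] := DF F u x - (C b * X + C (d : K)) * u x

lemma D_rel (hF : Closed F) (hadm : ∀ x ∈ F, Adm x.2) {u : K × List K → K[X]}
    (hu : Phi F u = 0) (b : K) (d : ℕ) : Phi F (D F b d u) = 0 := by
  unfold D
  rw [Phi_sub F (DF F u) (fun x => (C b * X + C (d : K)) * u x), Phi_mul, ← th_Phi hF hadm, hu,
    th_zero]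
  simp

lemma sum_mm_top {n : ℕ} {u : K × List K → K[X]} (hu : ∀ x ∈ F, n < x.2.length → u x = 0)
    {y : K × List K} (hy : n ≤ y.2.length) : ∑ x ∈ F, u x * C (mm x y) = 0 := by
  apply Finset.sum_eq_zero
  intro x hx
  by_cases h : mm x y = 0
  · rw [h]; simp
  · rw [hu x hx (by rw [mm_length h]; omega), zero_mul]

lemma D_top {n : ℕ} {u : K × List K → K[X]} (hu : ∀ x ∈ F, n < x.2.length → u x = 0)
    (b : K) (d : ℕ) {y : K × List K} (hy : n ≤ y.2.length) :
    D F b d u y = thp (u y) + C (y.1 - b) * X * u y - C (d : K) * u y := by
  unfold D DF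
  rw [sum_mm_top hu hy, C_sub]
  ring

/-- The end of the argument. -/
lemma final_contra (hF : Closed F) {n : ℕ}
    {u : K × List K → K[X]} (hu : Bad F n u) {x0 : K × List K} (hx0 : x0 ∈ S F n u) {d : ℕ}
    (hD : ∀ x ∈ F, D F x0.1 d u x = 0) : False := by
  classical
  obtain ⟨hx0F, hx0n, hx0u⟩ := mem_S.1 hx0
  obtain ⟨β0, w0⟩ := x0
  -- top coefficients away from `β0` vanish
  have h1 : ∀ y ∈ F, y.2.length = n → y.1 ≠ β0 → u y = 0 := by
    intro y hy hyn hyb
    have h2 := hD y hy
    rw [D_top hu.len _ _ hyn.ge] at h2
    exact poly1 (sub_ne_zero.2 hyb) d (by linear_combination h2)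
  have h2 : ∀ y ∈ F, y.2.length = n → y.1 = β0 → u y = C ((u y).coeff d) * X ^ d := by
    intro y hy hyn hyb
    have h2 := hD y hy
    rw [D_top hu.len _ _ hyn.ge, hyb, sub_self, C_0, zero_mul, zero_mul, add_zero] at h2
    exact poly3 d (by linear_combination h2)
  -- nonzero letters
  have h3 : ∀ α v, α ≠ 0 → (β0, α :: v) ∈ F → (α :: v).length = n → u (β0, α :: v) = 0 := by
    intro α v hα hx hn
    obtain ⟨-, hy⟩ := hF β0 α v hx
    have h4 := hD _ hy
    unfold D DF at h4
    have h5 : ∑ x ∈ F, u x * C (mm x (β0 + α, v)) = u (β0, α :: v) := by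
      rw [Finset.sum_eq_single_of_mem _ hx]
      · rw [mm_cons hα, if_pos rfl, if_neg]
        · simp
        · intro h
          have := congrArg Prod.fst h
          simp only at this
          exact hα (by linear_combination this)
      · intro x hxF hxne
        by_cases hm : mm x (β0 + α, v) = 0
        · rw [hm]; simp
        · have hlen := mm_length hm
          simp only at hlen
          have hlen' : x.2.length = n := by
            rw [hlen, ← hn]; rfl
          by_cases hb : x.1 = β0
          · exfalso
            obtain ⟨β, w⟩ := x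
            simp only at hb
            subst hb
            cases w with
            | nil => exact hm rfl
            | cons α' w =>
              by_cases hα' : α' = 0
              · subst hα'
                rw [mm_zero] at hm
                by_cases h6 : (β + α, v) = (β, w)
                · have := congrArg Prod.fst h6
                  simp only at this
                  exact hα (by linear_combination this)
                · exact hm (if_neg h6)
              · rw [mm_cons hα'] at hm
                have h6 : (β + α, v) ≠ (β, w) := by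
                  intro h6
                  have := congrArg Prod.fst h6
                  simp only at this
                  exact hα (by linear_combination this)
                rw [if_neg h6, sub_zero] at hm
                by_cases h7 : (β + α, v) = (β + α', w)
                · apply hxne
                  rw [Prod.mk.injEq] at h7
                  obtain ⟨h8, h9⟩ := h7
                  rw [add_left_cancel h8, h9]
                · exact hm (if_neg h7)
          · rw [h1 x hxF hlen' hb, zero_mul]
    rw [h5] at h4
    have h6 := h2 _ hx hn rfl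
    rw [h6] at h4 ⊢
    have h7 := poly2 (c := u (β0 + α, v)) hα d (k := (u (β0, α :: v)).coeff d) (by
      simp only at h4
      rw [C_add] at h4
      linear_combination h4)
    rw [h7]
    simp
  cases w0 with
  | nil =>
    simp only [List.length_nil] at hx0n
    subst hx0n
    have h4 := hu.rel
    unfold Phi at h4
    rw [Finset.sum_eq_single_of_mem _ hx0F] at h4
    · have h5 : (g (β0, ([] : List K)) : PowerSeries K) ≠ 0 := by
        intro h
        have h6 := congrArg (PowerSeries.coeff 0) h
        rw [g, I_nil, mul_one, coeff_zero_E] at h6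
        simp at h6
      rcases mul_eq_zero.1 h4 with h6 | h6
      · exact hx0u (by exact_mod_cast h6)
      · exact h5 h6
    · intro x hx hne
      have : u x = 0 := by
        by_cases hl : x.2.length = 0
        · by_cases hb : x.1 = β0
          · exfalso
            apply hne
            obtain ⟨β, w⟩ := x
            simp only at hb hl
            rw [List.length_eq_zero_iff] at hl
            rw [hb, hl]
          · exact h1 x hx hl hb
        · exact hu.len x hx (by omega)
      rw [this]
      simp
  | cons α0 w0 =>
    by_cases hα0 : α0 = 0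
    · subst hα0
      obtain ⟨hy, -⟩ := hF β0 0 w0 hx0F
      have h4 := hD _ hy
      unfold D DF at h4
      have h5 : ∑ x ∈ F, u x * C (mm x (β0, w0)) = u (β0, 0 :: w0) := by
        rw [Finset.sum_eq_single_of_mem _ hx0F]
        · rw [mm_zero, if_pos rfl]
          simp
        · intro x hxF hxne
          by_cases hm : mm x (β0, w0) = 0
          · rw [hm]; simp
          · have hlen := mm_length hm
            simp only at hlen
            have hlen' : x.2.length = n := by
              rw [hlen, ← hx0n]; rfl
            by_cases hb : x.1 = β0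
            · obtain ⟨β, w⟩ := x
              simp only at hb
              subst hb
              cases w with
              | nil => exact absurd rfl hm
              | cons α' w =>
                by_cases hα' : α' = 0
                · subst hα'
                  rw [mm_zero] at hm
                  by_cases h6 : (β, w0) = (β, w)
                  · exfalso
                    apply hxne
                    rw [Prod.mk.injEq] at h6
                    rw [h6.2]
                  · exact absurd (if_neg h6) hm
                · rw [h3 α' w hα' hxF hlen', zero_mul]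
            · rw [h1 x hxF hlen' hb, zero_mul]
      rw [h5, h2 _ hx0F hx0n rfl] at h4
      have h6 := congrArg (fun p => p.coeff d) h4
      simp only [coeff_sub, coeff_add, coeff_thp, add_mul, mul_assoc, coeff_C_mul, coeff_X_pow,
        if_true, coeff_zero, mul_one] at h6
      apply hx0u
      rw [h2 _ hx0F hx0n rfl]
      have h7 : (u (β0, 0 :: w0)).coeff d = 0 := by linear_combination h6
      rw [h7]
      simp
    · exact hx0u (h3 α0 w0 hα0 hx0F hx0n)

theorem no_bad_aux (hF : Closed F) (hadm : ∀ x ∈ F, Adm x.2) (n : ℕ)
    (ih : ∀ u : K × List K → K[X], (∀ x ∈ F, n ≤ x.2.length → u x = 0) → Phi F u = 0 →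
      ∀ x ∈ F, u x = 0) (k : ℕ) :
    ∀ u, Bad F n u → (S F n u).card = k → False := by
  induction k using Nat.strong_induction_on with
  | _ k ihk =>
    have key : ∀ d : ℕ, ∀ u x0, Bad F n u → (S F n u).card = k → x0 ∈ S F n u →
        (u x0).natDegree = d → False := by
      intro d
      induction d using Nat.strong_induction_on with
      | _ d ihd =>
        intro u x0 hu hk hx0 hd
        by_cases hD : ∀ x ∈ F, D F x0.1 d u x = 0
        · exact final_contra hF hu hx0 hD
        · push Not at hD
          have hlen : ∀ x ∈ F, n < x.2.length → D F x0.1 d u x = 0 := by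
            intro x hx hn
            rw [D_top hu.len _ _ hn.le, hu.len x hx hn]
            simp [thp]
          have hbad : Bad F n (D F x0.1 d u) := ⟨hlen, D_rel hF hadm hu.rel _ _, hD⟩
          have hsub : S F n (D F x0.1 d u) ⊆ S F n u := by
            intro x hx
            obtain ⟨hxF, hxn, hxu⟩ := mem_S.1 hx
            refine mem_S.2 ⟨hxF, hxn, fun h => hxu ?_⟩
            rw [D_top hu.len _ _ hxn.ge, h]
            simp [thp]
          by_cases hcard : (S F n (D F x0.1 d u)).card = k
          · have heq : S F n (D F x0.1 d u) = S F n u :=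
              Finset.eq_of_subset_of_card_le hsub (by rw [hk, hcard])
            have hx0' : x0 ∈ S F n (D F x0.1 d u) := heq ▸ hx0
            obtain ⟨hxF, hxn, hxu⟩ := mem_S.1 hx0
            obtain ⟨-, -, hxu'⟩ := mem_S.1 hx0'
            refine ihd _ ?_ _ x0 hbad hcard hx0' rfl
            rw [D_top hu.len _ _ hxn.ge, sub_self, C_0, zero_mul, zero_mul, add_zero] at hxu' ⊢
            rw [← hd] at hxu' ⊢
            exact thp_natDegree_lt hxu'
          · have := Finset.card_le_card hsub
            exact ihk _ (by omega) _ hbad rfl
    intro u hu hk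
    have hne : (S F n u).Nonempty := by
      by_contra h
      rw [Finset.not_nonempty_iff_eq_empty] at h
      obtain ⟨x, hx, hxu⟩ := hu.ne
      apply hxu
      refine ih u ?_ hu.rel x hx
      intro y hy hyn
      by_contra hyu
      rcases Nat.lt_or_ge n y.2.length with h1 | h1
      · exact hyu (hu.len y hy h1)
      · have : y ∈ S F n u := mem_S.2 ⟨hy, by omega, hyu⟩
        rw [h] at this
        simp at this
    obtain ⟨x0, hx0⟩ := hne
    exact key _ u x0 hu hk hx0 rfl

/-- **Linear independence over `K[X]`** of the functions `g (β, w) = exp (β X) * I w`, indexed by a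
closed finite set. -/
theorem lin_indep_closed (hF : Closed F) (hadm : ∀ x ∈ F, Adm x.2) (u : K × List K → K[X])
    (hu : Phi F u = 0) : ∀ x ∈ F, u x = 0 := by
  have key : ∀ n : ℕ, ∀ u : K × List K → K[X], (∀ x ∈ F, n ≤ x.2.length → u x = 0) →
      Phi F u = 0 → ∀ x ∈ F, u x = 0 := by
    intro n
    induction n with
    | zero => exact fun u hu _ x hx => hu x hx (Nat.zero_le _)
    | succ n ih =>
      intro u hu hrel x hx
      by_contra hxu
      exact no_bad_aux hF hadm n ih _ u ⟨fun y hy hn => hu y hy hn, hrel, x, hx, hxu⟩ rfl
  refine key (F.sup (fun x => x.2.length) + 1) u ?_ hu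
  intro x hx hn
  have h1 : x.2.length ≤ F.sup (fun x => x.2.length) :=
    Finset.le_sup (f := fun x : K × List K => x.2.length) hx
  omega

end

end Pool.Agent.EF
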