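import Pool.Agent.EF.Harm

/-!
# Algebraic independence of the values of the functions `U`
-/

set_option linter.unusedSectionVars false

open Polynomial

namespace Pool.Agent.EF

/-- The field of algebraic numbers. -/
abbrev QB : Type := ↥(algebraicClosure ℚ ℂ)

/-- its inclusion in `ℂ` -/
noncomputable def phi : QB →+* ℂ := algebraMap QB ℂ

/-- an algebraic number as an element of `QB` -/
def toQB (x : ℂ) (hx : IsAlgebraic ℚ x) : QB := ⟨x, mem_algebraicClosure_iff.2 hx⟩

lemma phi_toQB (x : ℂ) (hx : IsAlgebraic ℚ x) : phi (toQB x hx) = x := rfl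

lemma evW_phi_injective : Function.Injective (evW phi) := by
  have h1 : @Normal ℚ QB _ _ (algebraicClosure ℚ ℂ).algebra' :=
    @IsAlgClosure.normal ℚ QB _ _ (algebraicClosure ℚ ℂ).algebra' (algebraicClosure.isAlgClosure ℚ ℂ)
  exact @evW_injective QB _ _ (algebraicClosure ℚ ℂ).algebra' h1 phi

section abstract

variable {K : Type*} [Field K] [CharZero K]

/-- The subalgebra generated by the exponentials. -/
noncomputable def RW (K : Type*) [Field K] [CharZero K] : Subalgebra K (W K) :=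
  Algebra.adjoin K (Set.range eW)

lemma der_RW (D : Derivation K (W K) (W K)) (hD : ∀ β, D (eW β) = 0) : ∀ r ∈ RW K, D r = 0 := by
  intro r hr
  induction hr using Algebra.adjoin_induction with
  | mem x hx =>
    obtain ⟨β, rfl⟩ := hx
    exact hD β
  | algebraMap r => exact D.map_algebraMap r
  | add x y _ _ hx hy => rw [map_add, hx, hy, add_zero]
  | mul x y _ _ hx hy => rw [Derivation.leibniz, hx, hy, smul_zero, smul_zero, add_zero]

instance instCharZeroW : CharZero (W K) :=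
  charZero_of_injective_algebraMap (R := K) (FaithfulSMul.algebraMap_injective K (W K))

/-- Independence over the exponentials, in the algebra `W`. The base point may depend on the
level. -/
theorem algInd_UW (z0 : ℕ → K) : AlgebraicIndependent (RW K)
    (fun p : {p : K × ℕ // p.1 ≠ 0 ∧ p.1 ≠ z0 p.2} =>
      UW (z0 p.1.2) p.1.2 - UW p.1.1 p.1.2) := by
  refine algInd_of_derivations (K := K) (RW K) _ (fun p => p.1.2) (fun p => Dz p.1.1 p.1.2) ?_ ?_ ?_
  · exact fun p => der_RW _ fun β => Dz_eW _ _ _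
  · rintro ⟨⟨z, j⟩, hz, hz'⟩ ⟨⟨w, i⟩, hw, hw'⟩ hle hne
    simp only at hle hz' hw' ⊢
    rw [map_sub]
    rcases Nat.lt_or_eq_of_le hle with h | h
    · rw [Dz_lt z (z0 i) h, Dz_lt z w h, sub_zero]
    · subst h
      have hwz : w ≠ z := by
        rintro rfl
        exact hne rfl
      rw [Dz_ne z (z0 i) (Ne.symm hz') i, Dz_ne z w hwz i, sub_zero]
  · rintro ⟨⟨z, j⟩, hz, hz'⟩
    simp only at hz hz' ⊢
    rw [map_sub, Dz_ne z (z0 j) (Ne.symm hz') j, zero_sub]
    exact neg_ne_zero.2 (Dz_self z hz j)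

end abstract

/-- The field generated by the exponentials of algebraic numbers. -/
noncomputable def expField : IntermediateField ℚ ℂ :=
  IntermediateField.adjoin ℚ {x : ℂ | ∃ β : ℂ, IsAlgebraic ℚ β ∧ x = Complex.exp β}

/-- The image of the subalgebra generated by the exponentials. -/
noncomputable def SC : Subring ℂ := (RW QB).toSubring.map (evW phi)

lemma mem_SC_of_alg {x : ℂ} (hx : IsAlgebraic ℚ x) : x ∈ SC := by
  refine ⟨algebraMap QB (W QB) (toQB x hx), (RW QB).algebraMap_mem _, ?_⟩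
  exact evW_algebraMap _

lemma exp_mem_SC {β : ℂ} (hβ : IsAlgebraic ℚ β) : Complex.exp β ∈ SC :=
  ⟨eW (toQB β hβ), Algebra.subset_adjoin ⟨_, rfl⟩, evW_eW _⟩

lemma expField_isAlgebraic {x : ℂ} (hx : x ∈ expField) : IsAlgebraic SC x := by
  induction hx using IntermediateField.adjoin_induction with
  | mem x hx =>
    obtain ⟨β, hβ, rfl⟩ := hx
    exact isAlgebraic_algebraMap (R := SC) (A := ℂ) (⟨Complex.exp β, exp_mem_SC hβ⟩ : SC)
  | algebraMap x =>
    exact isAlgebraic_algebraMap (R := SC) (A := ℂ)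
      (⟨algebraMap ℚ ℂ x, mem_SC_of_alg (isAlgebraic_algebraMap x)⟩ : SC)
  | add x y _ _ hx hy => exact hx.add hy
  | inv x _ hx => exact hx.inv
  | mul x y _ _ hx hy => exact hx.mul hy

/-- Independence over the exponentials, in `ℂ`. -/
theorem algInd_evW (z0 : ℕ → QB) : AlgebraicIndependent expField
    (fun p : {p : QB × ℕ // p.1 ≠ 0 ∧ p.1 ≠ z0 p.2} =>
      evW phi (UW (z0 p.1.2) p.1.2) - evW phi (UW p.1.1 p.1.2)) := by
  have h1 := algInd_UW z0
  let f : RW QB →+* SC :=
    { toFun := fun r => ⟨evW phi r.1, ⟨r.1, r.2, rfl⟩⟩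
      map_one' := Subtype.ext (by simp)
      map_mul' := fun a b => Subtype.ext (by simp)
      map_zero' := Subtype.ext (by simp)
      map_add' := fun a b => Subtype.ext (by simp) }
  have hf : Function.Surjective f := by
    rintro ⟨_, ⟨r, hr, rfl⟩⟩
    exact ⟨⟨r, hr⟩, rfl⟩
  have h2 := h1.ringHom_of_comp_eq f (evW phi) hf evW_phi_injective (by
    ext r
    rfl)
  have h3 := h2.subalgebraAlgebraicClosure
  have h4 : ∀ x ∈ expField, x ∈ Subalgebra.algebraicClosure SC ℂ := fun x hx =>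
    expField_isAlgebraic hx
  let i : expField →+* Subalgebra.algebraicClosure SC ℂ :=
    { toFun := fun r => ⟨r.1, h4 r.1 r.2⟩
      map_one' := rfl
      map_mul' := fun _ _ => rfl
      map_zero' := rfl
      map_add' := fun _ _ => rfl }
  have h5 := AlgebraicIndependent.of_ringHom_of_comp_eq (R := expField) (A := ℂ)
    (x := fun p : {p : QB × ℕ // p.1 ≠ 0 ∧ p.1 ≠ z0 p.2} =>
      evW phi (UW (z0 p.1.2) p.1.2) - evW phi (UW p.1.1 p.1.2))
    i (RingHom.id ℂ) (by
      convert h3 using 1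
      ext p
      simp) (by
      intro a b hab
      apply Subtype.ext
      exact congrArg (fun t : Subalgebra.algebraicClosure SC ℂ => (t : ℂ)) hab) (by
      ext r
      rfl)
  exact h5

/-! ### Analytic description -/

/-- The function `U k z = exp (-z) ∑ H_n^(k) z^n / n!`. -/
noncomputable def Uc (k : ℕ) (z : ℂ) : ℂ :=
  Complex.exp (-z) * ∑' n : ℕ, hn ℂ k n * z ^ n / n.factorial

lemma evW_UW (z : QB) (j : ℕ) : evW phi (UW z j) = Uc (j + 1) (phi z) := by
  have h1 : evW phi (eW z * UW z j) = ∑' n : ℕ, hn ℂ (j + 1) n * (phi z) ^ n / n.factorial := by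
    rw [evW_apply]
    have h2 : ((eW z * UW z j : W QB) : PowerSeries QB) = AA (j + 1) z := by
      rw [AA_eq]
      rfl
    rw [h2, evG]
    congr 1
    ext n
    rw [coeff_AA, map_div₀, map_mul, map_pow, map_natCast, hn, hn, map_sum]
    simp
  rw [map_mul, evW_eW] at h1
  rw [Uc, ← h1, ← mul_assoc, ← Complex.exp_add, neg_add_cancel, Complex.exp_zero, one_mul]

/-- **Algebraic independence over the field of exponentials.** -/
theorem algInd_Uc {z0 : ℕ → ℂ} (hz0 : ∀ j, IsAlgebraic ℚ (z0 j)) :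
    AlgebraicIndependent expField
    (fun p : {p : ℂ × ℕ // IsAlgebraic ℚ p.1 ∧ p.1 ≠ 0 ∧ p.1 ≠ z0 p.2} =>
      Uc (p.1.2 + 1) (z0 p.1.2) - Uc (p.1.2 + 1) p.1.1) := by
  have h1 := algInd_evW (fun j => toQB (z0 j) (hz0 j))
  let e : {p : ℂ × ℕ // IsAlgebraic ℚ p.1 ∧ p.1 ≠ 0 ∧ p.1 ≠ z0 p.2} →
      {p : QB × ℕ // p.1 ≠ 0 ∧ p.1 ≠ toQB (z0 p.2) (hz0 p.2)} := fun p =>
    ⟨(toQB p.1.1 p.2.1, p.1.2), by
      intro h
      exact p.2.2.1 (congrArg (fun t : QB => (t : ℂ)) h), by
      intro h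
      exact p.2.2.2 (congrArg (fun t : QB => (t : ℂ)) h)⟩
  have he : Function.Injective e := by
    rintro ⟨⟨z, j⟩, hz⟩ ⟨⟨w, i⟩, hw⟩ h
    rw [Subtype.mk.injEq, Prod.mk.injEq] at h
    obtain ⟨h2, h3⟩ := h
    rw [Subtype.mk.injEq, Prod.mk.injEq]
    exact ⟨congrArg (fun t : QB => (t : ℂ)) h2, h3⟩
  have h2 := h1.comp e he
  convert h2 using 1
  ext p
  simp only [Function.comp_apply, evW_UW]
  rfl

end Pool.Agent.EF
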