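import Pool.Agent.EF.Deriv
import Pool.Agent.EF.DerivInd

/-!
# Independence of the functions attached to the polylogarithmic words
-/

set_option linter.unusedSectionVars false

open Polynomial

namespace Pool.Agent.EF

variable {K : Type*} [Field K] [CharZero K]

lemma adm_nil : Adm ([] : List K) := trivial

lemma adm_one {z : K} (hz : z ≠ 0) : Adm [z] := ⟨Or.inl hz, adm_nil⟩

lemma der_smul (D : Derivation K (W K) (W K)) (c : K) (u : W K) : D (c • u) = c • D u :=
  D.toLinearMap.map_smul c u

lemma E_eq_g (β : K) : E β = g (β, ([] : List K)) := by rw [g, I_nil, mul_one]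

/-- exponentials as elements of `W` -/
noncomputable def eW (β : K) : W K := ⟨E β, by
  rw [E_eq_g]
  exact g_mem (x := (β, ([] : List K))) adm_nil⟩

lemma eW_coe (β : K) : ((eW β : W K) : PowerSeries K) = E β := rfl

open Classical in
/-- iterated integrals as elements of `W`; junk value `0` for non-admissible words -/
noncomputable def IW (v : List K) : W K := if h : Adm v then ⟨I v, I_mem h⟩ else 0

lemma IW_of {v : List K} (h : Adm v) : (IW v : W K) = ⟨I v, I_mem h⟩ := by
  rw [IW, dif_pos h]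

lemma IW_coe {v : List K} (h : Adm v) : ((IW v : W K) : PowerSeries K) = I v := by
  rw [IW_of h]

lemma IW_nil : (IW ([] : List K) : W K) = 1 := by
  apply Subtype.ext
  rw [IW_coe adm_nil, I_nil]
  rfl

lemma adm_drop {v : List K} (h : Adm v) (n : ℕ) : Adm (v.drop n) := by
  induction n generalizing v with
  | zero => exact h
  | succ n ih =>
    cases v with
    | nil => exact adm_nil
    | cons b v => exact ih h.2

lemma dW_eW (a β : K) : dW a (eW β) = 0 := by
  apply Subtype.ext
  rw [dW_coe]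
  have h1 : (eW β : W K) =
      (⟨g (β, ([] : List K)), g_mem (x := (β, ([] : List K))) adm_nil⟩ : Wsp K) := by
    apply Subtype.ext
    exact E_eq_g β
  have h2 := del_g a (x := (β, ([] : List K))) adm_nil
  rw [rm_nil] at h2
  rw [h1]
  exact h2

open Classical in
lemma dW_IW_cons (a b : K) {v : List K} (h : Adm (b :: v)) :
    dW a (IW (b :: v)) = if b = a then IW v else 0 := by
  apply Subtype.ext
  rw [dW_coe, IW_of h]
  have h2 := del_I a h
  rw [rm_cons] at h2
  refine h2.trans ?_
  split_ifs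
  · rw [IW_coe h.2, I_eq_g]
  · rfl

lemma dW_IW_nil (a : K) : dW a (IW ([] : List K)) = 0 := by
  rw [IW_nil]
  exact (dW a).map_one_eq_zero

/-- The iterated commutators. -/
noncomputable def DD (α : K) : ℕ → Derivation K (W K) (W K)
  | 0 => dW α
  | j + 1 => ⁅dW (0 : K), DD α j⁆

lemma DD_zero (α : K) (u : W K) : DD α 0 u = dW α u := rfl

lemma DD_succ (α : K) (j : ℕ) (u : W K) :
    DD α (j + 1) u = dW 0 (DD α j u) - DD α j (dW 0 u) := by
  rw [DD, Derivation.commutator_apply]

lemma DD_eW (α β : K) (j : ℕ) : DD α j (eW β) = 0 := by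
  induction j with
  | zero => exact dW_eW α β
  | succ j ih => rw [DD_succ, ih, dW_eW, map_zero, map_zero, sub_zero]

lemma DD_IW_nil (α : K) (j : ℕ) : DD α j (IW ([] : List K)) = 0 := by
  rw [IW_nil]
  exact (DD α j).map_one_eq_zero

/-- Shape of the result. -/
lemma DD_shape (α : K) (j : ℕ) : ∀ v : List K, Adm v →
    ∃ c : K, DD α j (IW v) = c • IW (v.drop (j + 1)) := by
  classical
  induction j with
  | zero =>
    intro v hv
    cases v with
    | nil => exact ⟨0, by rw [DD_IW_nil, zero_smul]⟩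
    | cons b v =>
      refine ⟨if b = α then 1 else 0, ?_⟩
      rw [DD_zero, dW_IW_cons α b hv, List.drop_one, List.tail_cons]
      split_ifs <;> simp
  | succ j ih =>
    intro v hv
    have h1 : ∃ c : K, dW 0 (DD α j (IW v)) = c • IW (v.drop (j + 2)) := by
      obtain ⟨c, hc⟩ := ih v hv
      rw [hc, der_smul]
      have hd : v.drop (j + 2) = (v.drop (j + 1)).drop 1 := by rw [List.drop_drop]
      have hadm := adm_drop hv (j + 1)
      rw [hd]
      generalize v.drop (j + 1) = w at hadm ⊢
      cases w with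
      | nil => exact ⟨0, by rw [dW_IW_nil, smul_zero, zero_smul]⟩
      | cons b w =>
        refine ⟨c * if b = 0 then 1 else 0, ?_⟩
        rw [dW_IW_cons 0 b hadm, List.drop_one, List.tail_cons]
        split_ifs <;> simp
    have h2 : ∃ c : K, DD α j (dW 0 (IW v)) = c • IW (v.drop (j + 2)) := by
      cases v with
      | nil => exact ⟨0, by rw [dW_IW_nil, map_zero, zero_smul]⟩
      | cons b v =>
        obtain ⟨c, hc⟩ := ih v hv.2
        refine ⟨if b = 0 then c else 0, ?_⟩
        rw [dW_IW_cons 0 b hv, List.drop_succ_cons]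
        split_ifs
        · exact hc
        · rw [map_zero, zero_smul]
    obtain ⟨c1, hc1⟩ := h1
    obtain ⟨c2, hc2⟩ := h2
    exact ⟨c1 - c2, by rw [DD_succ, hc1, hc2, sub_smul]⟩

/-- The operators kill short words. -/
lemma DD_short (α : K) (j : ℕ) : ∀ v : List K, Adm v → v.length ≤ j → DD α j (IW v) = 0 := by
  classical
  induction j with
  | zero =>
    intro v _ hl
    rw [List.length_eq_zero_iff.1 (Nat.le_zero.1 hl)]
    exact DD_IW_nil α 0
  | succ j ih =>
    intro v hv hl
    obtain ⟨c, hc⟩ := DD_shape α j v hv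
    rw [DD_succ, hc, List.drop_of_length_le hl, der_smul, dW_IW_nil, smul_zero, zero_sub,
      neg_eq_zero]
    cases v with
    | nil => rw [dW_IW_nil, map_zero]
    | cons b v =>
      rw [dW_IW_cons 0 b hv]
      split_ifs
      · exact ih v hv.2 (by simpa using hl)
      · exact map_zero _

lemma adm_rep {z : K} (hz : z ≠ 0) (j : ℕ) : Adm (List.replicate j 0 ++ [z]) := by
  induction j with
  | zero => exact ⟨Or.inl hz, trivial⟩
  | succ j ih =>
    rw [List.replicate_succ, List.cons_append]
    exact ⟨Or.inr (by simp), ih⟩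

lemma adm_cons_rep {a z : K} (hz : z ≠ 0) (j : ℕ) : Adm (a :: (List.replicate j 0 ++ [z])) :=
  ⟨Or.inr (by simp), adm_rep hz j⟩

lemma drop_rep (a z : K) (j : ℕ) :
    (a :: (List.replicate j 0 ++ [z])).drop (j + 1) = [z] := by
  rw [List.drop_succ_cons, List.drop_append_of_le_length (by simp)]
  simp

/-- The key step. -/
lemma DD_cons_rep (α a : K) {z : K} (hz : z ≠ 0) (j : ℕ) :
    DD α (j + 1) (IW (a :: (List.replicate j 0 ++ [z]))) =
      - DD α j (dW 0 (IW (a :: (List.replicate j 0 ++ [z])))) := by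
  classical
  obtain ⟨c, hc⟩ := DD_shape α j _ (adm_cons_rep (a := a) hz j)
  rw [DD_succ, hc, drop_rep, der_smul, dW_IW_cons 0 z (adm_one hz), if_neg hz, smul_zero,
    zero_sub]

open Classical in
lemma DD_rep (α : K) {z : K} (hz : z ≠ 0) (j : ℕ) :
    DD α j (IW (List.replicate j 0 ++ [z])) = (if z = α then (-1 : W K) ^ j else 0) := by
  induction j with
  | zero =>
    rw [DD_zero, List.replicate_zero, List.nil_append, dW_IW_cons α z (adm_one hz), IW_nil,
      pow_zero]
  | succ j ih =>
    rw [List.replicate_succ, List.cons_append, DD_cons_rep α 0 hz j,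
      dW_IW_cons 0 0 (adm_cons_rep hz j), if_pos rfl, ih]
    split_ifs
    · rw [pow_succ]; ring
    · rw [neg_zero]

lemma DD_neg_rep (α : K) {a z : K} (ha : a ≠ 0) (hz : z ≠ 0) (j : ℕ) :
    DD α (j + 1) (IW (a :: (List.replicate j 0 ++ [z]))) = 0 := by
  classical
  rw [DD_cons_rep α a hz j, dW_IW_cons 0 a (adm_cons_rep hz j), if_neg ha, map_zero, neg_zero]

open Classical in
/-- The functions `U`. -/
noncomputable def UW (z : K) : ℕ → W K
  | 0 => if z = 0 then 0 else - IW [-z]
  | j + 1 => if z = 0 then 0 else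
      IW (-z :: (List.replicate j 0 ++ [z])) + IW (List.replicate (j + 1) 0 ++ [z])

lemma UW_zero_left (j : ℕ) : UW (0 : K) j = 0 := by
  cases j with
  | zero => rw [UW, if_pos rfl]
  | succ j => rw [UW, if_pos rfl]

lemma UW_zero {z : K} (hz : z ≠ 0) : UW z 0 = - IW [-z] := by
  rw [UW, if_neg hz]

lemma UW_succ {z : K} (hz : z ≠ 0) (j : ℕ) : UW z (j + 1) =
    IW (-z :: (List.replicate j 0 ++ [z])) + IW (List.replicate (j + 1) 0 ++ [z]) := by
  rw [UW, if_neg hz]

/-- The dual derivations. -/
noncomputable def Dz (z : K) : ℕ → Derivation K (W K) (W K)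
  | 0 => dW (-z)
  | j + 1 => DD z (j + 1)

lemma Dz_eW (z β : K) (j : ℕ) : Dz z j (eW β) = 0 := by
  cases j with
  | zero => exact dW_eW _ _
  | succ j => exact DD_eW _ _ _

lemma Dz_lt (z z' : K) {j j' : ℕ} (h : j' < j) : Dz z j (UW z' j') = 0 := by
  classical
  obtain ⟨j, rfl⟩ : ∃ i, j = i + 1 := ⟨j - 1, by omega⟩
  by_cases hz : z' = 0
  · rw [hz, UW_zero_left, map_zero]
  change DD z (j + 1) (UW z' j') = 0
  cases j' with
  | zero =>
    rw [UW_zero hz, map_neg, DD_short z (j + 1) _ (adm_one (neg_ne_zero.2 hz)) (by simp),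
      neg_zero]
  | succ j' =>
    rw [UW_succ hz, map_add, DD_short z (j + 1) _ (adm_cons_rep hz _) (by simp; omega),
      DD_short z (j + 1) _ (adm_rep hz _) (by simp; omega), add_zero]

open Classical in
lemma Dz_eq_zero (z z' : K) (hz' : z' ≠ 0) :
    Dz z 0 (UW z' 0) = if z' = z then -1 else 0 := by
    rw [UW_zero hz', map_neg]
    change - dW (-z) (IW [-z']) = _
    rw [dW_IW_cons (-z) (-z') (adm_one (neg_ne_zero.2 hz')), IW_nil]
    by_cases h : z' = z
    · rw [if_pos (by rw [h]), if_pos h]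
    · rw [if_neg (fun h1 => h (neg_injective h1)), if_neg h, neg_zero]

open Classical in
lemma Dz_eq_succ (z z' : K) (hz' : z' ≠ 0) (j : ℕ) :
    Dz z (j + 1) (UW z' (j + 1)) = if z' = z then (-1) ^ (j + 1) else 0 := by
  rw [UW_succ hz', map_add]
  change DD z (j + 1) _ + DD z (j + 1) _ = _
  rw [DD_neg_rep z (neg_ne_zero.2 hz') hz', DD_rep z hz', zero_add]

lemma Dz_ne (z z' : K) (h : z' ≠ z) (j : ℕ) : Dz z j (UW z' j) = 0 := by
  classical
  by_cases hz' : z' = 0
  · rw [hz', UW_zero_left, map_zero]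
  · cases j with
    | zero => rw [Dz_eq_zero z z' hz', if_neg h]
    | succ j => rw [Dz_eq_succ z z' hz', if_neg h]

lemma Dz_self (z : K) (hz : z ≠ 0) (j : ℕ) : Dz z j (UW z j) ≠ 0 := by
  classical
  cases j with
  | zero =>
    rw [Dz_eq_zero z z hz, if_pos rfl]
    exact neg_ne_zero.2 one_ne_zero
  | succ j =>
    rw [Dz_eq_succ z z hz, if_pos rfl]
    exact pow_ne_zero _ (neg_ne_zero.2 one_ne_zero)

end Pool.Agent.EF
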