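import Pool.Agent.EF.Eval
import Pool.Agent.EF.Poly

/-!
# The algebra `W` over the field of algebraic numbers
-/

set_option linter.unusedSectionVars false

open Polynomial

namespace Pool.Agent.EF

section hom

variable {K L : Type*} [Field K] [CharZero K] [Field L] [CharZero L] (i : K →+* L)

lemma map_E (β : K) : PowerSeries.map i (E β) = E (i β) := by
  ext n
  rw [PowerSeries.coeff_map, coeff_E, coeff_E, map_div₀, map_pow, map_natCast]

lemma map_J (f : PowerSeries K) : PowerSeries.map i (J f) = J (PowerSeries.map i f) := by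
  ext n
  rw [PowerSeries.coeff_map, coeff_J, coeff_J, PowerSeries.coeff_map, map_div₀, map_natCast]

lemma map_ep (α : K) [Decidable (α = 0)] [Decidable (i α = 0)] :
    PowerSeries.map i (ep α) = ep (i α) := by
  by_cases h : α = 0
  · have h' : i α = 0 := by rw [h, map_zero]
    unfold ep
    rw [if_pos h, if_pos h', map_one]
  · have h' : i α ≠ 0 := by simpa using h
    rw [ep_of_ne h, ep_of_ne h', map_sub, map_E, map_one]

lemma map_I (w : List K) : PowerSeries.map i (I w) = I (w.map i) := by
  classical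
  induction w with
  | nil => rw [List.map_nil, I_nil, I_nil, map_one]
  | cons α w ih => rw [List.map_cons, I_cons, I_cons, map_J, map_mul, map_ep, ih]

lemma map_g (x : K × List K) : PowerSeries.map i (g x) = g (i x.1, x.2.map i) := by
  rw [g, g, map_mul, map_E, map_I]

lemma Adm_map {w : List K} : Adm (w.map i) ↔ Adm w := by
  induction w with
  | nil => exact Iff.rfl
  | cons α w ih =>
    rw [List.map_cons]
    have h1 : Adm (i α :: w.map i) ↔ (i α ≠ 0 ∨ w.map i ≠ []) ∧ Adm (w.map i) := Iff.rfl
    have h2 : Adm (α :: w) ↔ (α ≠ 0 ∨ w ≠ []) ∧ Adm w := Iff.rfl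
    rw [h1, h2, ih]
    simp

lemma map_smul' (c : K) (f : PowerSeries K) :
    PowerSeries.map i (c • f) = i c • PowerSeries.map i f := by
  ext n
  rw [PowerSeries.coeff_map, PowerSeries.coeff_smul, PowerSeries.coeff_smul,
    PowerSeries.coeff_map, smul_eq_mul, smul_eq_mul, map_mul]

end hom

section sm

variable {K : Type*} [Field K] [CharZero K] {φ : K →+* ℂ}

/-- Absolute summability of the coefficients. -/
def Sm (φ : K →+* ℂ) (f : PowerSeries K) : Prop :=
  Summable fun n => ‖φ (PowerSeries.coeff n f)‖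

lemma Sm.add {f g : PowerSeries K} (hf : Sm φ f) (hg : Sm φ g) : Sm φ (f + g) := by
  refine Summable.of_nonneg_of_le (fun _ => norm_nonneg _) (fun n => ?_)
    (Summable.add (f := fun n => ‖φ (PowerSeries.coeff n f)‖) hf hg)
  rw [map_add, map_add]
  exact norm_add_le _ _

lemma Sm.smul {f : PowerSeries K} (hf : Sm φ f) (c : K) : Sm φ (c • f) := by
  have h := Summable.mul_left ‖φ c‖ (f := fun n => ‖φ (PowerSeries.coeff n f)‖) hf
  refine h.congr fun n => ?_
  rw [PowerSeries.coeff_smul, smul_eq_mul, map_mul, norm_mul]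

lemma Sm.zero : Sm φ 0 := by
  refine summable_zero.congr fun n => ?_
  simp

lemma Sm.sub {f g : PowerSeries K} (hf : Sm φ f) (hg : Sm φ g) : Sm φ (f - g) := by
  have : f - g = f + (-1 : K) • g := by
    rw [neg_smul, one_smul, sub_eq_add_neg]
  rw [this]
  exact hf.add (hg.smul _)

lemma Sm.mul {f g : PowerSeries K} (hf : Sm φ f) (hg : Sm φ g) : Sm φ (f * g) := by
  have h := summable_norm_sum_mul_antidiagonal_of_summable_norm hf hg
  refine h.congr fun n => ?_
  rw [PowerSeries.coeff_mul, map_sum]
  simp only [map_mul]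

lemma Sm.E (β : K) : Sm φ (E β) := by
  have h := Real.summable_pow_div_factorial ‖φ β‖
  refine h.congr fun n => ?_
  rw [coeff_E, map_div₀, map_pow, map_natCast, norm_div, norm_pow, Complex.norm_natCast]

lemma Sm.one : Sm φ 1 := by
  rw [← E_zero]
  exact Sm.E 0

lemma Sm.J {f : PowerSeries K} (hf : Sm φ f) : Sm φ (J f) := by
  refine Summable.of_nonneg_of_le (fun _ => norm_nonneg _) (fun n => ?_) hf
  rw [coeff_J]
  rcases Nat.eq_zero_or_pos n with rfl | hn
  · simp
  · rw [map_div₀, norm_div, map_natCast, Complex.norm_natCast]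
    exact div_le_self (norm_nonneg _) (by exact_mod_cast hn)

lemma Sm.ep (α : K) [Decidable (α = 0)] : Sm φ (ep α) := by
  by_cases h : α = 0
  · unfold EF.ep
    rw [if_pos h]
    exact Sm.one
  · rw [ep_of_ne h]
    exact (Sm.E α).sub Sm.one

lemma Sm.I (w : List K) : Sm φ (I w) := by
  classical
  induction w with
  | nil => exact Sm.one
  | cons α w ih =>
    rw [I_cons]
    exact ((Sm.ep α).mul ih).J

lemma Sm.g (x : K × List K) : Sm φ (g x) := (Sm.E _).mul (Sm.I _)

lemma Sm.of_mem {f : PowerSeries K} (hf : f ∈ Wsp K) : Sm φ f := by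
  induction hf using Submodule.span_induction with
  | mem x hx =>
    obtain ⟨y, _, rfl⟩ := hx
    exact Sm.g y
  | zero => exact Sm.zero
  | add x y _ _ hx hy => exact hx.add hy
  | smul c x _ hx => exact hx.smul c

/-- Value at `1` under a complex embedding. -/
noncomputable def evG (φ : K →+* ℂ) (f : PowerSeries K) : ℂ :=
  ∑' n, φ (PowerSeries.coeff n f)

lemma evG_zero : evG φ (0 : PowerSeries K) = 0 := by simp [evG]

lemma evG_one : evG φ (1 : PowerSeries K) = 1 := by
  unfold evG
  rw [tsum_eq_single 0]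
  · simp
  · intro n hn
    rw [PowerSeries.coeff_one, if_neg hn, map_zero]

lemma evG_add {f h : PowerSeries K} (hf : Sm φ f) (hh : Sm φ h) :
    evG φ (f + h) = evG φ f + evG φ h := by
  unfold evG
  rw [← (Summable.of_norm hf).tsum_add (Summable.of_norm hh)]
  congr 1
  ext n
  rw [map_add, map_add]

lemma evG_smul (c : K) (f : PowerSeries K) : evG φ (c • f) = φ c * evG φ f := by
  unfold evG
  rw [← tsum_mul_left]
  congr 1
  ext n
  rw [PowerSeries.coeff_smul, smul_eq_mul, map_mul]

lemma evG_mul {f h : PowerSeries K} (hf : Sm φ f) (hh : Sm φ h) :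
    evG φ (f * h) = evG φ f * evG φ h := by
  unfold evG
  rw [tsum_mul_tsum_eq_tsum_sum_antidiagonal_of_summable_norm hf hh]
  congr 1
  ext n
  rw [PowerSeries.coeff_mul, map_sum]
  simp only [map_mul]

/-- Evaluation as a ring homomorphism on `W`. -/
noncomputable def evW (φ : K →+* ℂ) : W K →+* ℂ where
  toFun f := evG φ f
  map_one' := evG_one
  map_mul' f h := evG_mul (Sm.of_mem f.2) (Sm.of_mem h.2)
  map_zero' := evG_zero
  map_add' f h := evG_add (Sm.of_mem f.2) (Sm.of_mem h.2)

lemma evW_apply (f : W K) : evW φ f = evG φ (f : PowerSeries K) := rfl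

lemma evW_algebraMap (c : K) : evW φ (algebraMap K (W K) c) = φ c := by
  rw [evW_apply]
  have h1 : ((algebraMap K (W K) c : W K) : PowerSeries K) = c • (1 : PowerSeries K) := by
    rw [Algebra.algebraMap_eq_smul_one]
    rfl
  rw [h1, evG_smul, evG_one, mul_one]

lemma evW_eW (β : K) : evW φ (eW β) = Complex.exp (φ β) := by
  rw [evW_apply, eW_coe, evG, Complex.exp_eq_exp_ℂ, NormedSpace.exp_eq_tsum_div]
  congr 1
  ext n
  rw [coeff_E, map_div₀, map_pow, map_natCast]

end sm

section inj

variable {L : Type*} [Field L] [CharZero L] [Algebra ℚ L] [Normal ℚ L]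

/-- A finite set of elements is contained in a finite normal extension. -/
lemma exists_field' {F E : Type*} [Field F] [Field E] [Algebra F E] [Normal F E] (T : Finset E) :
    ∃ K : IntermediateField F E, FiniteDimensional F K ∧ Normal F K ∧ ∀ t ∈ T, t ∈ K := by
  have hint : ∀ t : E, IsIntegral F t := fun t => Normal.isIntegral inferInstance t
  have h1 : FiniteDimensional F (IntermediateField.adjoin F (T : Set E)) :=
    IntermediateField.finiteDimensional_adjoin fun t _ => hint t
  refine ⟨IntermediateField.normalClosure F (IntermediateField.adjoin F (T : Set E)) E,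
    inferInstance, inferInstance, fun t ht => ?_⟩
  exact IntermediateField.le_normalClosure _ (IntermediateField.subset_adjoin _ _ ht)

/-- A finite set of elements is contained in a Galois number field. -/
lemma exists_field (T : Finset L) : ∃ K : IntermediateField ℚ L, NumberField K ∧ IsGalois ℚ K ∧
    ∀ t ∈ T, t ∈ K := by
  obtain ⟨K, h1, h2, h3⟩ := exists_field' (F := ℚ) T
  have e : (K.algebra' : Algebra ℚ K) = DivisionRing.toRatAlgebra := Subsingleton.elim _ _
  have h1' : @Module.Finite ℚ K _ _ (@Algebra.toModule _ _ _ _ K.algebra') := h1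
  have h2' : @Normal ℚ K _ _ K.algebra' := h2
  rw [e] at h1' h2'
  have h4 : NumberField K := { to_finiteDimensional := h1' }
  have h5 : Normal ℚ K := h2'
  exact ⟨K, h4, { to_normal := h5 }, h3⟩

/-- **Main theorem, over the algebraic numbers.** -/
theorem evG_ne_zero {f : PowerSeries L} (hf : f ∈ Wsp L) (φ : L →+* ℂ)
    (h0 : evG φ f = 0) : f = 0 := by
  classical
  obtain ⟨F, c, hadm, hrep⟩ := exists_repr hf
  obtain ⟨K, hK1, hK2, hK3⟩ := exists_field
    (F.image c ∪ F.image Prod.fst ∪ F.biUnion fun x => x.2.toFinset)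
  have hc : ∀ x ∈ F, ∃ c' : K, (c' : L) = c x := by
    intro x hx
    exact ⟨⟨c x, hK3 _ (by
      simp only [Finset.mem_union, Finset.mem_image]
      exact Or.inl (Or.inl ⟨x, hx, rfl⟩))⟩, rfl⟩
  have hb : ∀ x ∈ F, ∃ b' : K, (b' : L) = x.1 := by
    intro x hx
    exact ⟨⟨x.1, hK3 _ (by
      simp only [Finset.mem_union, Finset.mem_image]
      exact Or.inl (Or.inr ⟨x, hx, rfl⟩))⟩, rfl⟩
  have hw : ∀ x ∈ F, ∃ w' : List K, w'.map (algebraMap K L) = x.2 := by
    intro x hx
    have h1 : ∀ a ∈ x.2, a ∈ K := by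
      intro a ha
      refine hK3 _ ?_
      simp only [Finset.mem_union, Finset.mem_biUnion]
      exact Or.inr ⟨x, hx, List.mem_toFinset.2 ha⟩
    refine ⟨x.2.attach.map fun a => ⟨a.1, h1 a.1 a.2⟩, ?_⟩
    rw [List.map_map]
    conv_rhs => rw [← List.attach_map_subtype_val x.2]
    exact List.map_congr_left fun a _ => rfl
  choose! c' hc' using hc
  choose! b' hb' using hb
  choose! w' hw' using hw
  set f' : PowerSeries K := ∑ x ∈ F, c' x • g (b' x, w' x) with hf'
  have h1 : PowerSeries.map (algebraMap K L) f' = f := by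
    rw [hf', hrep, map_sum]
    refine Finset.sum_congr rfl fun x hx => ?_
    rw [map_smul', map_g]
    simp only
    rw [hw' x hx]
    have e1 : algebraMap K L (c' x) = c x := hc' x hx
    have e2 : algebraMap K L (b' x) = x.1 := hb' x hx
    rw [e1, e2]
  have h2 : f' ∈ Wsp K := by
    refine Submodule.sum_mem _ fun x hx => Submodule.smul_mem _ _ (g_mem ?_)
    have h3 := hadm x hx
    rw [← hw' x hx, Adm_map] at h3
    exact h3
  have h3 : evC (φ.comp (algebraMap K L)) f' = 0 := by
    rw [← h0, ← h1]
    unfold evC evG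
    congr 1
  rw [← h1, evC_ne_zero h2 _ h3, map_zero]

theorem evW_injective (φ : L →+* ℂ) : Function.Injective (evW φ : W L →+* ℂ) := by
  rw [injective_iff_map_eq_zero]
  intro f hf
  apply Subtype.ext
  exact evG_ne_zero f.2 φ hf

end inj

end Pool.Agent.EF
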