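import Pool.Agent.EF.Descent

/-!
# Siegel–Shidlovskii for the algebra `W`
-/

set_option linter.unusedSectionVars false

open Polynomial

namespace Pool.Agent.EF

variable {K : Type*} [Field K] [NumberField K]

/-- Finite-dimensional subspaces of `W` adapted to the method. -/
structure Nice (V : Submodule K (PowerSeries K)) : Prop where
  le : V ≤ Wsp K
  fin : Module.Finite K V
  one : (1 : PowerSeries K) ∈ V
  th : ∀ f ∈ V, ∃ u₀ ∈ V, ∃ u₁ ∈ V, th f = u₀ + PowerSeries.X * u₁
  cj : ∀ (σ : K ≃ₐ[ℚ] K), ∀ f ∈ V, cj σ f ∈ V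

lemma act_mul (σ τ : K ≃ₐ[ℚ] K) (x : K × List K) : act σ (act τ x) = act (σ * τ) x := by
  simp [act]

lemma nice_span {F : Finset (K × List K)} (hF : Closed F) (hadm : ∀ x ∈ F, Adm x.2)
    (h0 : ((0 : K), ([] : List K)) ∈ F) (hG : ∀ (σ : K ≃ₐ[ℚ] K), ∀ x ∈ F, act σ x ∈ F) :
    Nice (Submodule.span K (g '' (F : Set (K × List K)))) where
  le := Submodule.span_mono (Set.image_mono fun x hx => hadm x hx)
  fin := Module.Finite.span_of_finite K ((Finset.finite_toSet F).image g)
  one := by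
    have : g ((0 : K), ([] : List K)) = 1 := by rw [g, I_nil, E_zero, mul_one]
    rw [← this]
    exact Submodule.subset_span ⟨_, h0, rfl⟩
  th := by
    intro f hf
    induction hf using Submodule.span_induction with
    | mem x hx =>
      obtain ⟨y, hy, rfl⟩ := hx
      have hy' : y ∈ F := hy
      refine ⟨∑ z ∈ F, mm y z • g z, Submodule.sum_mem _ fun z hz => Submodule.smul_mem _ _
        (Submodule.subset_span ⟨z, hz, rfl⟩), y.1 • g y, Submodule.smul_mem _ _
        (Submodule.subset_span ⟨y, hy, rfl⟩), ?_⟩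
      rw [th_g_eq hF hy' (hadm y hy')]
      have h1 : ∑ z ∈ F, PowerSeries.C (mm y z) * g z = ∑ z ∈ F, mm y z • g z :=
        Finset.sum_congr rfl fun z _ => by rw [PowerSeries.smul_eq_C_mul]
      rw [h1, PowerSeries.smul_eq_C_mul]
      ring
    | zero => exact ⟨0, Submodule.zero_mem _, 0, Submodule.zero_mem _, by rw [th_zero]; ring⟩
    | add x y _ _ hx hy =>
      obtain ⟨u₀, hu₀, u₁, hu₁, hu⟩ := hx
      obtain ⟨v₀, hv₀, v₁, hv₁, hv⟩ := hy
      exact ⟨u₀ + v₀, Submodule.add_mem _ hu₀ hv₀, u₁ + v₁, Submodule.add_mem _ hu₁ hv₁, by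
        rw [th_add, hu, hv]; ring⟩
    | smul c x _ hx =>
      obtain ⟨u₀, hu₀, u₁, hu₁, hu⟩ := hx
      exact ⟨c • u₀, Submodule.smul_mem _ _ hu₀, c • u₁, Submodule.smul_mem _ _ hu₁, by
        rw [th_smul, hu, smul_add, mul_smul_comm]⟩
  cj := by
    intro σ f hf
    induction hf using Submodule.span_induction with
    | mem x hx =>
      obtain ⟨y, hy, rfl⟩ := hx
      rw [cj_g]
      exact Submodule.subset_span ⟨_, hG σ y hy, rfl⟩
    | zero => rw [map_zero]; exact Submodule.zero_mem _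
    | add x y _ _ hx hy => rw [map_add]; exact Submodule.add_mem _ hx hy
    | smul c x _ hx => rw [cj_smul]; exact Submodule.smul_mem _ _ hx

lemma exists_nice {f : PowerSeries K} (hf : f ∈ Wsp K) :
    ∃ V : Submodule K (PowerSeries K), Nice V ∧ f ∈ V := by
  classical
  obtain ⟨F, c, hadm, rfl⟩ := exists_repr hf
  set F₁ := clF (insert ((0 : K), ([] : List K)) F) with hF₁
  have hF₁c : Closed F₁ := clF_closed _
  have hF₁a : ∀ x ∈ F₁, Adm x.2 := clF_adm (by
    intro x hx
    rcases Finset.mem_insert.1 hx with rfl | hx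
    · trivial
    · exact hadm x hx)
  set F₂ : Finset (K × List K) := Finset.univ.biUnion fun σ : K ≃ₐ[ℚ] K => F₁.image (act σ)
    with hF₂
  have hmem : ∀ x, x ∈ F₂ ↔ ∃ (σ : K ≃ₐ[ℚ] K) (y : K × List K), y ∈ F₁ ∧ act σ y = x := by
    intro x
    rw [hF₂]
    simp only [Finset.mem_biUnion, Finset.mem_univ, true_and, Finset.mem_image]
  have hsub : ∀ x ∈ F₁, x ∈ F₂ := by
    intro x hx
    rw [hmem]
    refine ⟨1, x, hx, ?_⟩
    have h1 : (⇑(1 : K ≃ₐ[ℚ] K)) = id := rfl
    rw [act, h1, List.map_id]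
    rfl
  refine ⟨_, nice_span (F := F₂) ?_ ?_ ?_ ?_, ?_⟩
  · intro β α w h
    rw [hmem] at h
    obtain ⟨σ, ⟨β', w'⟩, hy, h⟩ := h
    rw [act, Prod.mk.injEq] at h
    obtain ⟨h1, h2⟩ := h
    simp only at h1 h2
    cases w' with
    | nil => simp at h2
    | cons α' w' =>
      rw [List.map_cons, List.cons.injEq] at h2
      obtain ⟨h2, h3⟩ := h2
      obtain ⟨h4, h5⟩ := hF₁c _ _ _ hy
      refine ⟨(hmem _).2 ⟨σ, _, h4, ?_⟩, (hmem _).2 ⟨σ, _, h5, ?_⟩⟩
      · simp only [act, h1, h3]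
      · simp only [act, map_add, h1, h2, h3]
  · intro x hx
    obtain ⟨σ, y, hy, rfl⟩ := (hmem x).1 hx
    exact adm_map σ (hF₁a y hy)
  · exact hsub _ (subset_clF _ (Finset.mem_insert_self _ _))
  · intro σ x hx
    obtain ⟨τ, y, hy, rfl⟩ := (hmem x).1 hx
    exact (hmem _).2 ⟨σ * τ, y, hy, (act_mul σ τ y).symm⟩
  · refine Submodule.sum_mem _ fun x hx => Submodule.smul_mem _ _ (Submodule.subset_span ⟨x, ?_, rfl⟩)
    exact hsub _ (subset_clF _ (Finset.mem_insert_of_mem hx))

/-- The rational power series in `V`. -/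
noncomputable def VQ (V : Submodule K (PowerSeries K)) : Submodule ℚ (PowerSeries ℚ) where
  carrier := {f | (iQ f : PowerSeries K) ∈ V}
  zero_mem' := by
    change (iQ 0 : PowerSeries K) ∈ V
    rw [map_zero]; exact V.zero_mem
  add_mem' := by
    intro f h hf hh
    change (iQ (f + h) : PowerSeries K) ∈ V
    rw [map_add]; exact V.add_mem hf hh
  smul_mem' := by
    intro c f hf
    change (iQ (c • f) : PowerSeries K) ∈ V
    rw [iQ_smul]; exact V.smul_mem _ hf

lemma mem_VQ {V : Submodule K (PowerSeries K)} {f : PowerSeries ℚ} :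
    f ∈ VQ V ↔ (iQ f : PowerSeries K) ∈ V := Iff.rfl

lemma finite_VQ {V : Submodule K (PowerSeries K)} (hV : Nice V) : Module.Finite ℚ (VQ V) := by
  have := hV.fin
  have h1 : Module.Finite ℚ V := Module.Finite.trans K V
  let φ : VQ V →ₗ[ℚ] V :=
    { toFun := fun f => ⟨iQ f.1, f.2⟩
      map_add' := fun f h => Subtype.ext (by simp)
      map_smul' := fun c f => Subtype.ext (by
        change (iQ (c • f.1) : PowerSeries K) = c • (iQ f.1 : PowerSeries K)
        rw [iQ_smul, algebraMap_smul]) }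
  refine Module.Finite.of_injective φ ?_
  intro f h hfh
  apply Subtype.ext
  apply iQ_injective (K := K)
  exact congrArg Subtype.val hfh

lemma Tr_mem [IsGalois ℚ K] {V : Submodule K (PowerSeries K)} (hV : Nice V) {f : PowerSeries K}
    (hf : f ∈ V) : Tr f ∈ VQ V := by
  rw [mem_VQ, iQ_Tr]
  exact V.smul_mem _ (Submodule.sum_mem _ fun σ _ => hV.cj σ f hf)

lemma ths_VQ [IsGalois ℚ K] {V : Submodule K (PowerSeries K)} (hV : Nice V) {f : PowerSeries ℚ}
    (hf : f ∈ VQ V) : ∃ u₀ ∈ VQ V, ∃ u₁ ∈ VQ V, SS.ths f = u₀ + PowerSeries.X * u₁ := by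
  obtain ⟨u₀, hu₀, u₁, hu₁, hu⟩ := hV.th _ hf
  refine ⟨Tr u₀, Tr_mem hV hu₀, Tr u₁, Tr_mem hV hu₁, ?_⟩
  rw [← Tr_X_mul, ← Tr_add, ← hu, ← iQ_ths, Tr_iQ]

/-- `ℚ[X]`-linear independence of `ℚ`-linearly independent rational elements of `W`. -/
lemma li_poly {V : Submodule K (PowerSeries K)} (hV : V ≤ Wsp K) {ι : Type*} [Fintype ι]
    (f : ι → PowerSeries ℚ) (hf : ∀ i, f i ∈ VQ V) (hli : LinearIndependent ℚ f) (P : ι → ℚ[X])
    (hP : ∑ i, (P i : PowerSeries ℚ) * f i = 0) : P = 0 := by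
  classical
  have h1 : ∀ i, ∃ (F : Finset (K × List K)) (c : K × List K → K), (∀ x ∈ F, Adm x.2) ∧
      (iQ (f i) : PowerSeries K) = ∑ x ∈ F, c x • g x := fun i => exists_repr (hV (hf i))
  choose F c hadm hrep using h1
  set F' : Finset (K × List K) := Finset.univ.biUnion F with hF'
  have hadm' : ∀ x ∈ F', Adm x.2 := by
    intro x hx
    rw [hF', Finset.mem_biUnion] at hx
    obtain ⟨i, _, hx⟩ := hx
    exact hadm i x hx
  set c' : ι → K × List K → K := fun i x => if x ∈ F i then c i x else 0 with hc'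
  have hrep' : ∀ i, (iQ (f i) : PowerSeries K) = ∑ x ∈ F', c' i x • g x := by
    intro i
    rw [hrep i]
    rw [← Finset.sum_subset (s₁ := F i) (s₂ := F')
      (fun x hx => Finset.mem_biUnion.2 ⟨i, Finset.mem_univ i, hx⟩)]
    · refine Finset.sum_congr rfl fun x hx => ?_
      simp only [hc', if_pos hx]
    · intro x _ hx
      simp only [hc', if_neg hx, zero_smul]
  -- the relation over `K`
  have h2 : Phi F' (fun x => ∑ i, (P i).map (algebraMap ℚ K) * C (c' i x)) = 0 := by
    have h3 := congrArg (iQ : PowerSeries ℚ → PowerSeries K) hP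
    rw [map_zero, map_sum] at h3
    rw [← h3]
    unfold Phi
    have h4 : ∀ i, (iQ ((P i : PowerSeries ℚ) * f i) : PowerSeries K) =
        ∑ x ∈ F', (((P i).map (algebraMap ℚ K) * C (c' i x) : K[X]) : PowerSeries K) * g x := by
      intro i
      rw [map_mul, hrep' i, Finset.mul_sum]
      refine Finset.sum_congr rfl fun x _ => ?_
      have h5 : (iQ (P i : PowerSeries ℚ) : PowerSeries K) =
          (((P i).map (algebraMap ℚ K) : K[X]) : PowerSeries K) := by
        ext n
        rw [coeff_iQ, Polynomial.coeff_coe, Polynomial.coeff_coe, coeff_map]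
      rw [h5, Polynomial.coe_mul, Polynomial.coe_C, PowerSeries.smul_eq_C_mul]
      ring
    simp only [h4]
    rw [Finset.sum_comm]
    refine Finset.sum_congr rfl fun x _ => ?_
    rw [← Finset.sum_mul]
    congr 1
    have := map_sum (Polynomial.coeToPowerSeries.ringHom : K[X] →+* PowerSeries K)
      (fun i => (P i).map (algebraMap ℚ K) * C (c' i x)) Finset.univ
    simp only [Polynomial.coeToPowerSeries.ringHom_apply] at this
    exact this
  have h3 := lin_indep hadm' _ h2
  have h4 : ∀ k : ℕ, ∑ i, (P i).coeff k • f i = 0 := by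
    intro k
    apply iQ_injective (K := K)
    rw [map_zero, map_sum]
    simp only [iQ_smul, hrep']
    simp only [Finset.smul_sum]
    rw [Finset.sum_comm]
    apply Finset.sum_eq_zero
    intro x hx
    have h5 := congrArg (fun p => p.coeff k) (h3 x hx)
    simp only [finsetSum_coeff, coeff_mul_C, coeff_map, coeff_zero] at h5
    simp only [smul_smul]
    rw [← Finset.sum_smul, h5, zero_smul]
  ext i k
  rw [Pi.zero_apply, coeff_zero]
  exact Fintype.linearIndependent_iff.1 hli _ (h4 k) i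

/-- **Siegel–Shidlovskii for `W`, rational case.** -/
theorem ssQ [IsGalois ℚ K] {f : PowerSeries ℚ} (hf : (iQ f : PowerSeries K) ∈ Wsp K)
    (h0 : SS.ev f = 0) : f = 0 := by
  classical
  obtain ⟨V, hV, hfV⟩ := exists_nice hf
  have hfin := finite_VQ hV
  have h1 : (1 : PowerSeries ℚ) ∈ VQ V := by
    rw [mem_VQ, map_one]; exact hV.one
  have hs : LinearIndepOn ℚ id ({⟨1, h1⟩} : Set (VQ V)) := by
    refine LinearIndepOn.singleton (R := ℚ) ?_
    intro h
    have := congrArg Subtype.val h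
    exact one_ne_zero this
  set b := Module.Basis.extend hs with hb
  have hfi : Finite ↥(hs.extend (Set.subset_univ _)) := Module.Finite.finite_basis b
  have := Fintype.ofFinite ↥(hs.extend (Set.subset_univ _))
  set j0 : ↥(hs.extend (Set.subset_univ _)) :=
    ⟨⟨1, h1⟩, hs.subset_extend (Set.subset_univ _) (Set.mem_singleton _)⟩ with hj0
  have hbj : ∀ j, ((b j : VQ V) : PowerSeries ℚ) = (j.1 : PowerSeries ℚ) := by
    intro j
    rw [hb, Module.Basis.extend_apply_self]
  have hliV : LinearIndependent ℚ (fun j => ((b j : VQ V) : PowerSeries ℚ)) :=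
    b.linearIndependent.map' (VQ V).subtype (Submodule.ker_subtype _)
  have hE : ∀ v : VQ V, SS.IsE (v : PowerSeries ℚ) := fun v => isE_of_EK (EK.of_mem (hV.le v.2))
  have hspan : ∀ v ∈ VQ V, v ∈ Submodule.span ℚ[X]
      (Set.range fun j => ((b j : VQ V) : PowerSeries ℚ)) := by
    intro v hv
    have h2 : v = ∑ j, (b.repr ⟨v, hv⟩ j) • ((b j : VQ V) : PowerSeries ℚ) := by
      have h3 := congrArg Subtype.val (b.sum_repr ⟨v, hv⟩)
      simp only [Submodule.coe_sum, Submodule.coe_smul] at h3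
      exact h3.symm
    rw [h2]
    refine Submodule.sum_mem _ fun j _ => ?_
    have h3 : (b.repr ⟨v, hv⟩ j) • ((b j : VQ V) : PowerSeries ℚ) =
        (C (b.repr ⟨v, hv⟩ j) : ℚ[X]) • ((b j : VQ V) : PowerSeries ℚ) := by
      rw [SS.smul_eq_coe_mul, Polynomial.coe_C, PowerSeries.smul_eq_C_mul]
    rw [h3]
    exact Submodule.smul_mem _ _ (Submodule.subset_span ⟨j, rfl⟩)
  set c : ↥(hs.extend (Set.subset_univ _)) → ℚ := fun j => b.repr ⟨f, hfV⟩ j with hc
  have hfc : f = ∑ j, c j • ((b j : VQ V) : PowerSeries ℚ) := by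
    have h3 := congrArg Subtype.val (b.sum_repr ⟨f, hfV⟩)
    simp only [Submodule.coe_sum, Submodule.coe_smul] at h3
    exact h3.symm
  have hc0 : c = 0 := by
    refine SS.ss_fintype (fun j => ((b j : VQ V) : PowerSeries ℚ)) (fun j => hE _) ?_ ?_ j0 ?_ c ?_
    · intro j
      obtain ⟨u₀, hu₀, u₁, hu₁, hu⟩ := ths_VQ hV (b j).2
      rw [hu]
      refine Submodule.add_mem _ (hspan _ hu₀) ?_
      have : PowerSeries.X * u₁ = (X : ℚ[X]) • u₁ := by
        rw [SS.smul_eq_coe_mul, Polynomial.coe_X]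
      rw [this]
      exact Submodule.smul_mem _ _ (hspan _ hu₁)
    · exact fun P hP => li_poly hV.le _ (fun j => (b j).2) hliV P hP
    · rw [hbj]
    · rw [← h0, hfc]
      have hA : ∀ j, SS.ASum (c j • ((b j : VQ V) : PowerSeries ℚ)) := by
        intro j
        rw [PowerSeries.smul_eq_C_mul, ← Polynomial.coe_C]
        exact (SS.ASum.coe _).mul (hE _).asum
      rw [SS.ev_sum _ _ fun j _ => hA j]
      refine Finset.sum_congr rfl fun j _ => ?_
      rw [PowerSeries.smul_eq_C_mul, ← Polynomial.coe_C, SS.ev_mul (SS.ASum.coe _) (hE _).asum,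
        SS.ev_coe, eval_C]
  rw [hfc]
  apply Finset.sum_eq_zero
  intro j _
  rw [hc0, Pi.zero_apply, zero_smul]

end Pool.Agent.EF
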